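import Pool.Agent.H.MP_f13560_pr.NB.Key
import Pool.Agent.FX.Fam

/-!
# A box of environments in which the corner path is the longest one
-/

set_option autoImplicit false

open MeasureTheory ProbabilityTheory

namespace Pool.Agent.FX.NB

variable {N : ℕ}

/-- the box -/
noncomputable def bx (N : ℕ) (c0 d0 c : Fin (N + 1) × Fin (N + 1)) : Set ℝ :=
  if c = c0 then Set.Icc 1 2 else if c = d0 then Set.Icc 3 4
  else if c.1.val = 0 ∨ c.2.val = N then Set.Ici 6 else Set.Icc 0 1

private theorem Box_tail {a : ℝ} (ha : 0 ≤ a) : 0 < expMeasure 1 (Set.Ici a) := by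
  have h : Set.Ici a = {x : ℝ | a ≤ x} := rfl
  rw [h, E_tail ha]
  exact ENNReal.ofReal_pos.2 (Real.exp_pos _)

private theorem Box_icc {a b : ℝ} (ha : 0 ≤ a) (hab : a < b) : 0 < expMeasure 1 (Set.Icc a b) := by
  rw [pos_iff_ne_zero]
  intro h
  have h1 := E_tail ha
  have h2 := E_tail (ha.trans hab.le)
  have h3 : expMeasure 1 {x : ℝ | a ≤ x} ≤
      expMeasure 1 (Set.Icc a b) + expMeasure 1 {x : ℝ | b ≤ x} := by
    refine (measure_mono ?_).trans (measure_union_le _ _)
    intro x hx
    rcases le_total x b with h' | h'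
    · exact Or.inl ⟨hx, h'⟩
    · exact Or.inr h'
  rw [h, h1, h2, zero_add, ENNReal.ofReal_le_ofReal_iff (Real.exp_pos _).le,
    Real.exp_le_exp] at h3
  linarith

/-- Proof: `Measure.pi_pi` and `E_tail` (intervals have positive measure), as `corner_pos` in FY/Pos.lean. -/
theorem bx_pos (c0 d0 : Fin (N + 1) × Fin (N + 1)) :
    0 < law N (Set.univ.pi (bx N c0 d0)) := by
  have := isProbabilityMeasure_expMeasure (r := 1) one_pos
  unfold law
  rw [Measure.pi_pi, pos_iff_ne_zero, Finset.prod_ne_zero_iff]
  intro c _
  unfold bx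
  split_ifs
  · exact (Box_icc (by norm_num) (by norm_num)).ne'
  · exact (Box_icc (by norm_num) (by norm_num)).ne'
  · exact (Box_tail (by norm_num)).ne'
  · exact (Box_icc le_rfl one_pos).ne'

private theorem Box_corner {k : ℕ} (hk : k ≤ 2 * N) {c : Fin (N + 1) × Fin (N + 1)}
    (ha : c.1.val + c.2.val = k) (hc : c.1.val = 0 ∨ c.2.val = N) : c = corner N k := by
  have hb1 := c.1.isLt
  have hb2 := c.2.isLt
  refine Prod.ext (Fin.ext ?_) (Fin.ext ?_)
  · simp only [corner]
    omega
  · simp only [corner]
    omega

private theorem Box_lev {k : ℕ} (hk : k ≤ 2 * N) :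
    (corner N k).1.val + (corner N k).2.val = k := by
  simp only [corner]
  omega

private theorem Box_on (k : ℕ) : (corner N k).1.val = 0 ∨ (corner N k).2.val = N := by
  simp only [corner]
  omega

/-- Proof: let `v` be a path. On each level a cell off the corner path, not `d0`, has weight at most `1`, which is
at most the weight of the corner path on this level. If `v k0 = d0` then on the level `k1` the path `v` has weight at most
`1` and the corner path at least `6`, on the level `k0` they have at most `4` and at least `1`. -/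
theorem bx_sub {c0 d0 : Fin (N + 1) × Fin (N + 1)} {k0 k1 : ℕ} (hk0 : k0 ≤ 2 * N) (hk1 : k1 ≤ 2 * N)
    (hne : k0 ≠ k1) (hc0 : c0 = corner N k0) (hd : ¬ (d0.1.val = 0 ∨ d0.2.val = N))
    (hd0 : d0.1.val + d0.2.val = k0)
    (h : ∀ v, IsPath N v → v k0 = d0 → v k1 ≠ corner N k1) :
    Set.univ.pi (bx N c0 d0) ⊆ cone N (corner N) := by
  intro ω hω
  have h0 : ∀ c, ω c ∈ bx N c0 d0 c := fun c => hω c trivial
  have hcd : c0 ≠ d0 := by
    intro he
    rw [← he, hc0] at hd
    exact hd (Box_on k0)
  have hC : 1 ≤ ω c0 ∧ ω c0 ≤ 2 := by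
    have h1 := h0 c0
    rw [bx, if_pos rfl] at h1
    exact h1
  have hD : 3 ≤ ω d0 ∧ ω d0 ≤ 4 := by
    have h1 := h0 d0
    rw [bx, if_neg hcd.symm, if_pos rfl] at h1
    exact h1
  have hbig : ∀ c : Fin (N + 1) × Fin (N + 1), (c.1.val = 0 ∨ c.2.val = N) → c ≠ c0 →
      6 ≤ ω c := by
    intro c hc hcc
    have h1 := h0 c
    have hcd' : c ≠ d0 := by
      intro he
      rw [he] at hc
      exact hd hc
    rw [bx, if_neg hcc, if_neg hcd', if_pos hc] at h1
    exact h1
  have hsmall : ∀ c : Fin (N + 1) × Fin (N + 1), ¬ (c.1.val = 0 ∨ c.2.val = N) → c ≠ d0 →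
      0 ≤ ω c ∧ ω c ≤ 1 := by
    intro c hc hcd'
    have h1 := h0 c
    have hcc : c ≠ c0 := by
      intro he
      rw [he, hc0] at hc
      exact hc (Box_on k0)
    rw [bx, if_neg hcc, if_neg hcd', if_neg hc] at h1
    exact h1
  have hone : ∀ k, 1 ≤ ω (corner N k) := by
    intro k
    by_cases hk : corner N k = c0
    · rw [hk]
      exact hC.1
    · have := hbig _ (Box_on k) hk
      linarith
  refine ⟨fun c => ?_, fun v hv => ?_⟩
  · by_cases hcc : c = c0
    · rw [hcc]
      linarith [hC.1]
    · by_cases hcd' : c = d0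
      · rw [hcd']
        linarith [hD.1]
      · by_cases hc : c.1.val = 0 ∨ c.2.val = N
        · have := hbig c hc hcc
          linarith
        · exact (hsmall c hc hcd').1
  · have hgen : ∀ k, k ≤ 2 * N → v k ≠ d0 → ω (v k) ≤ ω (corner N k) := by
      intro k hk hkd
      have ha := hv.antidiag (k := k) hk
      by_cases hc : (v k).1.val = 0 ∨ (v k).2.val = N
      · rw [Box_corner hk ha hc]
      · exact (hsmall _ hc hkd).2.trans (hone k)
    unfold len
    by_cases hvd : v k0 = d0
    · have hk1' : ω (v k1) ≤ 1 := by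
        have ha := hv.antidiag (k := k1) hk1
        have hcv : ¬ ((v k1).1.val = 0 ∨ (v k1).2.val = N) := fun hc =>
          h v hv hvd (Box_corner hk1 ha hc)
        refine (hsmall _ hcv ?_).2
        intro he
        rw [he] at ha
        exact hne (by omega)
      have hk1c : 6 ≤ ω (corner N k1) := by
        refine hbig _ (Box_on k1) ?_
        intro he
        have h1 := Box_lev hk1
        rw [he, hc0, Box_lev hk0] at h1
        exact hne h1
      have hle : ∀ k ∈ Finset.range (2 * N + 1), ω (v k) ≤ ω (corner N k) +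
          ((if k = k0 then (3 : ℝ) else 0) + (if k = k1 then (-5 : ℝ) else 0)) := by
        intro k hk
        rw [Finset.mem_range] at hk
        by_cases h1 : k = k0
        · rw [if_pos h1, if_neg (fun h2 => hne (h1.symm.trans h2)), h1, hvd]
          linarith [hD.2, hone k0]
        · by_cases h2 : k = k1
          · rw [if_neg h1, if_pos h2, h2]
            linarith
          · rw [if_neg h1, if_neg h2]
            have h3 : v k ≠ d0 := by
              intro he
              have ha := hv.antidiag (k := k) (by omega)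
              rw [he] at ha
              exact h1 (by omega)
            linarith [hgen k (by omega) h3]
      refine (Finset.sum_le_sum hle).trans ?_
      rw [Finset.sum_add_distrib, Finset.sum_add_distrib, Finset.sum_ite_eq', Finset.sum_ite_eq',
        if_pos (Finset.mem_range.2 (by omega)), if_pos (Finset.mem_range.2 (by omega))]
      linarith
    · refine Finset.sum_le_sum fun k hk => ?_
      rw [Finset.mem_range] at hk
      refine hgen k (by omega) ?_
      intro he
      have ha := hv.antidiag (k := k) (by omega)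
      rw [he, hd0] at ha
      rw [← ha] at he
      exact hvd he

end Pool.Agent.FX.NB
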