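import Pool.Agent.FX.Defs

/-!
# The law is invariant under permutations of the cells
-/

set_option autoImplicit false

open MeasureTheory ProbabilityTheory

namespace Pool.Agent.FX.NB

/-- Proof: `law N` is `Measure.pi` of one measure; `measurePreserving_piCongrLeft` (constant family) and
`MeasurePreserving.measure_preimage_equiv`. -/
theorem law_perm (N : ℕ) (σ : Equiv.Perm (Fin (N + 1) × Fin (N + 1))) (A : Set (Env N)) :
    law N {ω | (fun c => ω (σ c)) ∈ A} = law N A := by
  haveI := isProbabilityMeasure_expMeasure (show (0 : ℝ) < 1 by norm_num)
  have h := (measurePreserving_piCongrLeft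
    (fun _ : Fin (N + 1) × Fin (N + 1) => expMeasure 1) σ).symm
  exact h.measure_preimage_equiv A

end Pool.Agent.FX.NB
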