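import Pool.Agent.H.MP_f13560_pr.NB.PaA
import Pool.Agent.H.MP_f13560_pr.NB.Perm

/-!
# The two symmetries of the square

PROOF. `law_perm` with the involution `σ` of the cells (`(x, y) ↦ (y, x)` or `(N - y, N - x)`): `cone (σ ∘ v) = {ω | ω ∘ σ ∈ cone v}`,
since `v'` is a path if and only if `σ ∘ v'` (in the second case `k ↦ σ (v' (2 N - k))`) is one, and
`len (σ ∘ v) ω = len v (ω ∘ σ)` (in the second case by reflecting the sum, `Finset.sum_range_reflect`).
-/

set_option autoImplicit false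

open MeasureTheory ProbabilityTheory

namespace Pool.Agent.FX.NB

variable {N : ℕ}

theorem sym_swap_path {v : ℕ → Fin (N + 1) × Fin (N + 1)} (hv : IsPath N v) :
    IsPath N fun k => (v k).swap := by
  refine ⟨?_, ?_, fun k hk => ?_⟩
  · change (v 0).swap = _
    rw [hv.start]
    rfl
  · change (v (2 * N)).swap = _
    rw [hv.stop]
    rfl
  · rcases hv.step k hk with ⟨h1, h2⟩ | ⟨h1, h2⟩
    · exact .inr ⟨h2, h1⟩
    · exact .inl ⟨h2, h1⟩

theorem sym_swap (v : ℕ → Fin (N + 1) × Fin (N + 1)) :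
    law N (cone N fun k => (v k).swap) = law N (cone N v) := by
  rw [← law_perm N (Equiv.prodComm (Fin (N + 1)) (Fin (N + 1))) (cone N v)]
  congr 1
  ext ω
  constructor
  · rintro ⟨h1, h2⟩
    exact ⟨fun c => h1 _, fun v' hv' => h2 _ (sym_swap_path hv')⟩
  · rintro ⟨h1, h2⟩
    refine ⟨fun c => ?_, fun v' hv' => ?_⟩
    · exact h1 c.swap
    · exact h2 _ (sym_swap_path hv')

theorem sym_rev_path {v : ℕ → Fin (N + 1) × Fin (N + 1)} (hv : IsPath N v) :
    IsPath N fun k => ((v (2 * N - k)).2.rev, (v (2 * N - k)).1.rev) := by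
  refine ⟨?_, ?_, fun k hk => ?_⟩
  · change ((v (2 * N - 0)).2.rev, (v (2 * N - 0)).1.rev) = _
    rw [Nat.sub_zero, hv.stop, Fin.rev_last]
  · change ((v (2 * N - 2 * N)).2.rev, (v (2 * N - 2 * N)).1.rev) = _
    rw [Nat.sub_self, hv.start, Fin.rev_zero]
  · obtain ⟨m, hm⟩ : ∃ m, m = 2 * N - (k + 1) := ⟨_, rfl⟩
    have hm' : 2 * N - k = m + 1 := by omega
    have h := hv.step m (by omega)
    simp only [← hm, hm', Fin.val_rev]
    have b1 := (v (m + 1)).1.isLt
    have b2 := (v (m + 1)).2.isLt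
    rcases h with ⟨h1, h2⟩ | ⟨h1, h2⟩
    · right
      rw [h2]
      exact ⟨rfl, by omega⟩
    · left
      rw [h1]
      exact ⟨by omega, rfl⟩

theorem sym_rev (v : ℕ → Fin (N + 1) × Fin (N + 1)) :
    law N (cone N fun k => ((v (2 * N - k)).2.rev, (v (2 * N - k)).1.rev)) = law N (cone N v) := by
  let σ : Equiv.Perm (Fin (N + 1) × Fin (N + 1)) :=
    ⟨fun c => (c.2.rev, c.1.rev), fun c => (c.2.rev, c.1.rev),
      fun c => by simp, fun c => by simp⟩
  have hlen : ∀ (v : ℕ → Fin (N + 1) × Fin (N + 1)) (ω : Env N),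
      len N (fun k => ((v (2 * N - k)).2.rev, (v (2 * N - k)).1.rev)) ω =
        len N v fun c => ω (σ c) := by
    intro v ω
    unfold len
    rw [← Finset.sum_range_reflect (fun k => ω (σ (v k))) (2 * N + 1)]
    rfl
  have hσ : ∀ c, σ (σ c) = c := fun c => σ.left_inv c
  rw [← law_perm N σ (cone N v)]
  congr 1
  ext ω
  constructor
  · rintro ⟨h1, h2⟩
    refine ⟨fun c => h1 _, fun v' hv' => ?_⟩
    have h3 := h2 _ (sym_rev_path hv')
    rw [hlen, hlen] at h3
    exact h3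
  · rintro ⟨h1, h2⟩
    refine ⟨fun c => ?_, fun v' hv' => ?_⟩
    · have h3 : 0 ≤ ω (σ (σ c)) := h1 (σ c)
      rw [hσ] at h3
      exact h3
    · have h3 := h2 _ (sym_rev_path hv')
      rw [hlen] at h3 ⊢
      simp only [hσ] at h3
      exact h3

end Pool.Agent.FX.NB
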