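import Pool.Agent.H.MP_f13560_pr.NB.Main

/-!
# The final form
-/

set_option autoImplicit false

open MeasureTheory ProbabilityTheory

namespace Pool.Agent.FX.NB

variable {N : ℕ}

theorem nearCorner' (hN : 2 ≤ N) {v : ℕ → Fin (N + 1) × Fin (N + 1)} (hv : IsPath N v)
    (h1 : (v (N - 2)).1.val = 0) (h2 : (v N).1.val = 1) (h3 : (v (N + 2)).1.val = 2) :
    law N (cone N v) < law N (cone N (corner N)) ∧
      law N (cone N fun k => (v k).swap) < law N (cone N (corner N)) := by
  have a1 := hv.antidiag (k := N - 2) (by omega)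
  have a2 := hv.antidiag (k := N) (by omega)
  have a3 := hv.antidiag (k := N + 2) (by omega)
  refine nearCorner hN hv (Prod.ext (Fin.ext ?_) (Fin.ext ?_)) (Prod.ext (Fin.ext ?_) (Fin.ext ?_))
    (Prod.ext (Fin.ext ?_) (Fin.ext ?_)) <;> simp only [cl] <;> omega

end Pool.Agent.FX.NB
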