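import Pool.Agent.H.MP_f13560_pr.NB.Fin2
import Pool.Agent.H.MP_f13560_pr.NB.Sym

/-!
# The square of side three
-/

set_option autoImplicit false

open MeasureTheory ProbabilityTheory

namespace Pool.Agent.FX.NB

/-- On the square of side `3` every path other than the two corner paths is less likely to be the longest
path. -/
theorem three {v : ℕ → Fin (2 + 1) × Fin (2 + 1)} (hv : IsPath 2 v)
    (h1 : ∃ k ≤ 2 * 2, v k ≠ corner 2 k) (h2 : ∃ k ≤ 2 * 2, v k ≠ (corner 2 k).swap) :
    law 2 (cone 2 v) < law 2 (cone 2 (corner 2)) := by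
  have a := hv.antidiag (k := 2) (by omega)
  have b1 : (v 2).1.val ≠ 0 := by
    intro h
    obtain ⟨k, hk, hne⟩ := h1
    refine hne (corner_of hv (Prod.ext (Fin.ext ?_) (Fin.ext ?_)) k hk) <;> simp only [cl] <;> omega
  have b2 : (v 2).2.val ≠ 0 := by
    intro h
    obtain ⟨k, hk, hne⟩ := h2
    have hs := corner_of (sym_swap_path hv) (Prod.ext (Fin.ext ?_) (Fin.ext ?_)) k hk
    · refine hne ?_
      rw [← hs]
      rfl
    · simp only [cl, Prod.fst_swap]
      omega
    · simp only [cl, Prod.snd_swap]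
      omega
  refine (nearCorner' le_rfl hv ?_ (by omega) ?_).1
  · have := hv.start
    rw [show 2 - 2 = 0 from rfl, this]
    rfl
  · have := hv.stop
    rw [show 2 + 2 = 2 * 2 from rfl, this]
    rfl

end Pool.Agent.FX.NB
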