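import Pool.Agent.H.MP_f13560_pr.NB.Fin3
import Pool.Agent.FZ.Main

/-!
# Paths through `(0, N - 1)`, through `(1, N)`, or through `(0, N - 2)`, `(1, N - 1)`, `(2, N)`
-/

set_option autoImplicit false

open MeasureTheory ProbabilityTheory

namespace Pool.Agent.FX.NB

variable {N : ℕ}

theorem mono4 {v : ℕ → Fin (N + 1) × Fin (N + 1)} (hv : IsPath N v) {i j : ℕ}
    (hij : i ≤ j) (hj : j ≤ 2 * N) :
    (v i).1.val ≤ (v j).1.val ∧ (v i).2.val ≤ (v j).2.val := by
  induction j with
  | zero =>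
    obtain rfl : i = 0 := by omega
    exact ⟨le_rfl, le_rfl⟩
  | succ j ih =>
    rcases Nat.lt_or_ge i (j + 1) with h | h
    · obtain ⟨h1, h2⟩ := ih (by omega) (by omega)
      rcases hv.step j (by omega) with ⟨a, b⟩ | ⟨a, b⟩
      · rw [a, b]
        omega
      · rw [a, b]
        omega
    · obtain rfl : i = j + 1 := by omega
      exact ⟨le_rfl, le_rfl⟩

theorem ext4 {a b : Fin (N + 1) × Fin (N + 1)} (h1 : a.1.val = b.1.val)
    (h2 : a.2.val = b.2.val) : a = b := Prod.ext (Fin.ext h1) (Fin.ext h2)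

/-- A path through `(0, N - 1)` other than the corner path. -/
theorem pk_of (hN : 2 ≤ N) {v : ℕ → Fin (N + 1) × Fin (N + 1)} (hv : IsPath N v)
    (h1 : (v (N - 1)).1.val = 0) (h2 : ∃ k ≤ 2 * N, v k ≠ corner N k) :
    ∃ k, 1 ≤ k ∧ k ≤ N ∧ ∀ j ≤ 2 * N, v j = FZ.pk N k j := by
  classical
  have hs := hv.stop
  have hex : ∃ j, N ≤ j ∧ (v j).2.val = N := ⟨2 * N, by omega, by rw [hs]; rfl⟩
  obtain ⟨m, hm, hmin⟩ : ∃ m, (N ≤ m ∧ (v m).2.val = N) ∧ ∀ j < m, ¬ (N ≤ j ∧ (v j).2.val = N) :=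
    ⟨Nat.find hex, Nat.find_spec hex, fun j hj => Nat.find_min hex hj⟩
  have hm2 : m ≤ 2 * N := by
    by_contra hcon
    exact hmin (2 * N) (by omega) ⟨by omega, by rw [hs]; rfl⟩
  have a1 := hv.antidiag (k := N - 1) (by omega)
  have hne : m ≠ N := by
    intro hmN
    obtain ⟨k, hk, hk2⟩ := h2
    have a2 := hv.antidiag (k := N) (by omega)
    rw [hmN] at hm
    refine hk2 (corner_of hv (ext4 ?_ ?_) k hk)
    · simp only [cl]
      omega
    · simp only [cl]
      omega
  refine ⟨m - N, by omega, by omega, fun j hj => ?_⟩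
  have aj := hv.antidiag (k := j) hj
  unfold FZ.pk
  split_ifs with c1 c2
  · have b := mono4 hv (i := j) (j := N - 1) (by omega) (by omega)
    refine ext4 ?_ ?_ <;> simp only [] <;> omega
  · have b := mono4 hv (i := N - 1) (j := j) (by omega) (by omega)
    have c := hmin j (by omega)
    have d := (v j).2.isLt
    have e : (v j).2.val ≠ N := fun h => c ⟨by omega, h⟩
    refine ext4 ?_ ?_ <;> simp only [] <;> omega
  · have b := mono4 hv (i := m) (j := j) (by omega) (by omega)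
    have d := (v j).2.isLt
    refine ext4 ?_ ?_ <;> simp only [] <;> omega

/-- The corner path is symmetric. -/
theorem rev_corner {j : ℕ} (hj : j ≤ 2 * N) :
    ((corner N (2 * N - j)).2.rev, (corner N (2 * N - j)).1.rev) = corner N j := by
  refine ext4 ?_ ?_ <;> simp only [corner, Fin.val_rev] <;> omega

/-- All the paths. -/
theorem allCorner (hN : 2 ≤ N) {v : ℕ → Fin (N + 1) × Fin (N + 1)} (hv : IsPath N v)
    (h : ∃ k ≤ 2 * N, v k ≠ corner N k)
    (h1 : (v (N - 1)).1.val = 0 ∨ (v (N + 1)).2.val = N ∨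
      ((v (N - 2)).1.val = 0 ∧ (v N).1.val = 1 ∧ (v (N + 2)).2.val = N)) :
    law N (cone N v) < law N (cone N (corner N)) ∧
      law N (cone N fun k => (v k).swap) < law N (cone N (corner N)) := by
  rw [sym_swap]
  refine (and_self_iff).2 ?_
  rcases h1 with h1 | h1 | ⟨h1, h2, h3⟩
  · obtain ⟨k, hk1, hk2, hk⟩ := pk_of hN hv h1 h
    rw [cone_congr hk]
    exact FZ.pk_lt hN hk1 hk2
  · have hr := sym_rev_path hv
    obtain ⟨k, hk1, hk2, hk⟩ := pk_of hN hr (by
      simp only [Fin.val_rev]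
      rw [show 2 * N - (N - 1) = N + 1 by omega, h1]
      omega) (by
      obtain ⟨j, hj, hne⟩ := h
      refine ⟨2 * N - j, by omega, fun he => hne ?_⟩
      have e := rev_corner (N := N) (j := j) hj
      rw [← he] at e
      rw [show 2 * N - (2 * N - j) = j by omega] at e
      rw [← e]
      simp)
    rw [← sym_rev v, cone_congr hk]
    exact FZ.pk_lt hN hk1 hk2
  · have a3 := hv.antidiag (k := N + 2) (by omega)
    exact (nearCorner' hN hv h1 h2 (by omega)).1

/-- All the paths, together with the square of side `3`. -/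
theorem allCorner' (hN : 2 ≤ N) {v : ℕ → Fin (N + 1) × Fin (N + 1)} (hv : IsPath N v)
    (h1 : ∃ k ≤ 2 * N, v k ≠ corner N k) (h2 : ∃ k ≤ 2 * N, v k ≠ (corner N k).swap)
    (h : N = 2 ∨ (v (N - 1)).1.val = 0 ∨ (v (N + 1)).2.val = N ∨
      ((v (N - 2)).1.val = 0 ∧ (v N).1.val = 1 ∧ (v (N + 2)).2.val = N)) :
    law N (cone N v) < law N (cone N (corner N)) ∧
      law N (cone N fun k => (v k).swap) < law N (cone N (corner N)) := by
  rcases h with rfl | h
  · rw [sym_swap]
    exact ⟨three hv h1 h2, three hv h1 h2⟩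
  · exact allCorner hN hv h1 h

end Pool.Agent.FX.NB
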