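import Pool.Agent.H.MP_f13560_pr.NB.Path

/-!
# Which paths go through the given vertices
-/

set_option autoImplicit false

open MeasureTheory ProbabilityTheory

namespace Pool.Agent.FX.NB

variable {N : ℕ}

private theorem PaB_mono {v : ℕ → Fin (N + 1) × Fin (N + 1)} (hv : IsPath N v) {i j : ℕ}
    (hij : i ≤ j) (hj : j ≤ 2 * N) :
    (v i).1.val ≤ (v j).1.val ∧ (v i).2.val ≤ (v j).2.val := by
  induction j with
  | zero =>
    obtain rfl : i = 0 := by omega
    exact ⟨le_rfl, le_rfl⟩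
  | succ j ih =>
    rcases Nat.lt_or_ge i (j + 1) with h | h
    · obtain ⟨h1, h2⟩ := ih (by omega) (by omega)
      rcases hv.step j (by omega) with ⟨a, b⟩ | ⟨a, b⟩
      · rw [a, b]
        omega
      · rw [a, b]
        omega
    · obtain rfl : i = j + 1 := by omega
      exact ⟨le_rfl, le_rfl⟩

private theorem PaB_ext {a b : Fin (N + 1) × Fin (N + 1)} (h1 : a.1.val = b.1.val)
    (h2 : a.2.val = b.2.val) : a = b := Prod.ext (Fin.ext h1) (Fin.ext h2)

private theorem PaB_cl (x y : ℕ) : (cl N x y).1.val = min x N ∧ (cl N x y).2.val = min y N :=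
  ⟨rfl, rfl⟩

private theorem PaB_co (k : ℕ) : (corner N k).1.val = min (k - N) N ∧
    (corner N k).2.val = min k N := ⟨rfl, rfl⟩

private theorem PaB_low {v : ℕ → Fin (N + 1) × Fin (N + 1)} (hv : IsPath N v) {K k : ℕ}
    (hK : K ≤ N) (h : (v K).1.val = 0) (hk : k ≤ K) : v k = corner N k := by
  have h1 := PaB_mono hv hk (by omega)
  have h2 := hv.antidiag (k := k) (by omega)
  obtain ⟨h3, h4⟩ := PaB_co (N := N) k
  refine PaB_ext ?_ ?_
  · rw [h3]
    omega
  · rw [h4]
    omega

private theorem PaB_high {v : ℕ → Fin (N + 1) × Fin (N + 1)} (hv : IsPath N v) {K k : ℕ}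
    (hK : N ≤ K) (h : (v K).2.val = N) (hk : K ≤ k) (hk2 : k ≤ 2 * N) : v k = corner N k := by
  have h1 := PaB_mono hv hk hk2
  have h2 := hv.antidiag (k := k) hk2
  have h5 := (v k).2.isLt
  obtain ⟨h3, h4⟩ := PaB_co (N := N) k
  refine PaB_ext ?_ ?_
  · rw [h3]
    omega
  · rw [h4]
    omega

/-- Proof: the first coordinates are `0` up to level `N`, the second ones are `N` from level `N` on
(monotonicity, `IsPath.antidiag`). -/
theorem corner_of {v : ℕ → Fin (N + 1) × Fin (N + 1)} (hv : IsPath N v)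
    (h : v N = cl N 0 N) : ∀ k ≤ 2 * N, v k = corner N k := by
  intro k hk
  obtain ⟨h1, h2⟩ := PaB_cl (N := N) 0 N
  rw [← h] at h1 h2
  rcases le_total k N with hkN | hkN
  · exact PaB_low hv le_rfl (by omega) hkN
  · exact PaB_high hv le_rfl (by omega) hkN hk

/-- Proof: as before, below level `N - 2` and above level `N + 2` the path is the corner path; between there
are two choices each. -/
theorem near_of (hN : 2 ≤ N) {v : ℕ → Fin (N + 1) × Fin (N + 1)} (hv : IsPath N v)
    (h1 : v (N - 2) = cl N 0 (N - 2)) (h2 : v N = cl N 1 (N - 1)) (h3 : v (N + 2) = cl N 2 N) :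
    ∃ l r : Bool, ∀ k ≤ 2 * N, v k = near N l r k := by
  obtain ⟨a1, a2⟩ := PaB_cl (N := N) 0 (N - 2)
  rw [← h1] at a1 a2
  obtain ⟨b1, b2⟩ := PaB_cl (N := N) 1 (N - 1)
  rw [← h2] at b1 b2
  obtain ⟨c1, c2⟩ := PaB_cl (N := N) 2 N
  rw [← h3] at c1 c2
  have m1 := PaB_mono hv (i := N - 2) (j := N - 1) (by omega) (by omega)
  have m2 := PaB_mono hv (i := N - 1) (j := N) (by omega) (by omega)
  have m3 := PaB_mono hv (i := N) (j := N + 1) (by omega) (by omega)
  have m4 := PaB_mono hv (i := N + 1) (j := N + 2) (by omega) (by omega)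
  have d1 := hv.antidiag (k := N - 1) (by omega)
  have d2 := hv.antidiag (k := N + 1) (by omega)
  refine ⟨decide ((v (N - 1)).1.val = 1), decide ((v (N + 1)).1.val = 2), fun k hk => ?_⟩
  unfold near
  simp only [decide_eq_true_eq]
  by_cases k1 : k = N
  · rw [if_pos k1, k1]
    exact h2
  rw [if_neg k1]
  by_cases k2 : k + 1 = N ∧ (v (N - 1)).1.val = 1
  · rw [if_pos k2]
    obtain ⟨k3, k4⟩ := k2
    have k5 : k = N - 1 := by omega
    subst k5
    obtain ⟨e1, e2⟩ := PaB_cl (N := N) 1 (N - 2)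
    refine PaB_ext ?_ ?_
    · rw [e1]
      omega
    · rw [e2]
      omega
  rw [if_neg k2]
  by_cases k3 : k = N + 1 ∧ (v (N + 1)).1.val = 2
  · rw [if_pos k3]
    obtain ⟨k4, k5⟩ := k3
    subst k4
    obtain ⟨e1, e2⟩ := PaB_cl (N := N) 2 (N - 1)
    refine PaB_ext ?_ ?_
    · rw [e1]
      omega
    · rw [e2]
      omega
  rw [if_neg k3]
  rcases lt_trichotomy (k + 1) N with k4 | k4 | k4
  · exact PaB_low hv (K := N - 2) (by omega) (by omega) (by omega)
  · have k5 : k = N - 1 := by omega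
    subst k5
    obtain ⟨e1, e2⟩ := PaB_co (N := N) (N - 1)
    have k6 : (v (N - 1)).1.val ≠ 1 := fun h => k2 ⟨k4, h⟩
    refine PaB_ext ?_ ?_
    · rw [e1]
      omega
    · rw [e2]
      omega
  · by_cases k5 : k = N + 1
    · subst k5
      obtain ⟨e1, e2⟩ := PaB_co (N := N) (N + 1)
      have k6 : (v (N + 1)).1.val ≠ 2 := fun h => k3 ⟨rfl, h⟩
      refine PaB_ext ?_ ?_
      · rw [e1]
        omega
      · rw [e2]
        omega
    · exact PaB_high hv (K := N + 2) (by omega) (by omega) (by omega) hk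

end Pool.Agent.FX.NB
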