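import Pool.Agent.H.MP_f13560_pr.NB.Path

/-!
# Replacing cells of a path
-/

set_option autoImplicit false

open MeasureTheory ProbabilityTheory

namespace Pool.Agent.FX.NB

variable {N : ℕ}

private theorem PaC_cl {M : ℕ} {c : Fin (M + 2 + 1) × Fin (M + 2 + 1)} {x y : ℕ} (hx : x ≤ M + 2)
    (hy : y ≤ M + 2) : c = cl (M + 2) x y ↔ c.1.val = x ∧ c.2.val = y := by
  unfold cl
  rw [Prod.ext_iff, Fin.ext_iff, Fin.ext_iff]
  simp only [min_eq_left hx, min_eq_left hy]

private theorem PaC_val {M : ℕ} {x y : ℕ} (hx : x ≤ M + 2) (hy : y ≤ M + 2) :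
    (cl (M + 2) x y).1.val = x ∧ (cl (M + 2) x y).2.val = y := (PaC_cl hx hy).mp rfl

/-- Replacing `(0, N - 1)` by `(1, N - 2)` and/or `(1, N)` by `(2, N - 1)` in a path which is not the corner
path. Proof: if `v (N - 1) = (0, N - 1)` then `v (N - 2) = (0, N - 2)` and `v N = (1, N - 1)` (not `(0, N)`); if
`v (N + 1) = (1, N)` then `v (N + 2) = (2, N)` and `v N = (1, N - 1)`. -/
theorem rep (hN : 2 ≤ N) {v : ℕ → Fin (N + 1) × Fin (N + 1)} (hv : IsPath N v)
    (h : v N ≠ cl N 0 N) (s1 s3 : Bool) : IsPath N (fun k =>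
      if k + 1 = N ∧ s1 = true ∧ v k = cl N 0 (N - 1) then cl N 1 (N - 2)
      else if k = N + 1 ∧ s3 = true ∧ v k = cl N 1 N then cl N 2 (N - 1) else v k) := by
  obtain ⟨M, rfl⟩ : ∃ M, N = M + 2 := ⟨N - 2, by omega⟩
  set w : ℕ → Fin (M + 2 + 1) × Fin (M + 2 + 1) := fun k =>
      if k + 1 = M + 2 ∧ s1 = true ∧ v k = cl (M + 2) 0 (M + 2 - 1) then cl (M + 2) 1 (M + 2 - 2)
      else if k = M + 2 + 1 ∧ s3 = true ∧ v k = cl (M + 2) 1 (M + 2) then
        cl (M + 2) 2 (M + 2 - 1) else v k with hw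
  have w0 : ∀ j, j + 1 ≠ M + 2 → j ≠ M + 2 + 1 → w j = v j := by
    intro j h1 h2
    rw [hw]
    simp only [h1, h2, false_and, if_false]
  have w1 : w (M + 1) = v (M + 1) ∨
      ((v (M + 1)).1.val = 0 ∧ (v (M + 1)).2.val = M + 1 ∧ (w (M + 1)).1.val = 1 ∧
        (w (M + 1)).2.val = M) := by
    by_cases hc : s1 = true ∧ v (M + 1) = cl (M + 2) 0 (M + 2 - 1)
    · right
      have e : w (M + 1) = cl (M + 2) 1 (M + 2 - 2) := if_pos ⟨rfl, hc⟩
      have e1 := (PaC_cl (by omega) (by omega)).mp hc.2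
      have e2 := PaC_val (M := M) (x := 1) (y := M + 2 - 2) (by omega) (by omega)
      rw [e]
      exact ⟨e1.1, by omega, e2.1, by omega⟩
    · left
      exact (if_neg (fun h1 => hc h1.2)).trans (if_neg (fun h1 => by omega))
  have w3 : w (M + 3) = v (M + 3) ∨
      ((v (M + 3)).1.val = 1 ∧ (v (M + 3)).2.val = M + 2 ∧ (w (M + 3)).1.val = 2 ∧
        (w (M + 3)).2.val = M + 1) := by
    by_cases hc : s3 = true ∧ v (M + 3) = cl (M + 2) 1 (M + 2)
    · right
      have e : w (M + 3) = cl (M + 2) 2 (M + 2 - 1) :=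
        (if_neg (fun h1 => by omega)).trans (if_pos ⟨rfl, hc⟩)
      have e1 := (PaC_cl (by omega) (by omega)).mp hc.2
      have e2 := PaC_val (M := M) (x := 2) (y := M + 2 - 1) (by omega) (by omega)
      rw [e]
      exact ⟨e1.1, e1.2, e2.1, by omega⟩
    · left
      exact (if_neg (fun h1 => by omega)).trans (if_neg (fun h1 => hc h1.2))
  have hN2 : ¬ ((v (M + 2)).1.val = 0 ∧ (v (M + 2)).2.val = M + 2) := fun h1 =>
    h ((PaC_cl (by omega) (by omega)).mpr h1)
  have hst : ∀ k < 2 * (M + 2),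
      ((v (k + 1)).1.val = (v k).1.val + 1 ∧ (v (k + 1)).2.val = (v k).2.val) ∨
      ((v (k + 1)).1.val = (v k).1.val ∧ (v (k + 1)).2.val = (v k).2.val + 1) := by
    intro k hk
    rcases hv.step k hk with ⟨a, b⟩ | ⟨a, b⟩
    · exact Or.inl ⟨a, congrArg Fin.val b⟩
    · exact Or.inr ⟨congrArg Fin.val a, b⟩
  have had : ∀ k ≤ 2 * (M + 2), (v k).1.val + (v k).2.val = k := fun k hk => hv.antidiag hk
  refine ⟨?_, ?_, ?_⟩
  · rw [w0 0 (by omega) (by omega)]
    exact hv.start
  · rw [w0 (2 * (M + 2)) (by omega) (by omega)]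
    exact hv.stop
  · intro k hk
    rw [Fin.ext_iff, Fin.ext_iff]
    have s := hst k hk
    have a := had k hk.le
    have b := had (k + 1) hk
    have l1 := (v k).2.isLt
    have l2 := (v (k + 1)).2.isLt
    by_cases k1 : k + 1 = M + 2
    · obtain rfl : k = M + 1 := by omega
      rw [w0 (M + 1 + 1) (by omega) (by omega)]
      rcases w1 with w1 | w1
      · rw [w1]
        exact s
      · have hN3 : ¬ ((v (M + 1 + 1)).1.val = 0 ∧ (v (M + 1 + 1)).2.val = M + 2) := hN2
        omega
    · by_cases k2 : k + 1 = M + 1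
      · obtain rfl : k = M := by omega
        rw [w0 k (by omega) (by omega)]
        rcases w1 with w1 | w1
        · rw [w1]
          exact s
        · omega
      · by_cases k3 : k = M + 2
        · subst k3
          rw [w0 (M + 2) (by omega) (by omega)]
          have w4 : w (M + 2 + 1) = v (M + 2 + 1) ∨
              ((v (M + 2 + 1)).1.val = 1 ∧ (v (M + 2 + 1)).2.val = M + 2 ∧
                (w (M + 2 + 1)).1.val = 2 ∧ (w (M + 2 + 1)).2.val = M + 1) := w3
          clear w3
          rcases w4 with w3 | w3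
          · rw [w3]
            exact s
          · omega
        · by_cases k4 : k = M + 3
          · subst k4
            rw [w0 (M + 3 + 1) (by omega) (by omega)]
            rcases w3 with w3 | w3
            · rw [w3]
              exact s
            · omega
          · rw [w0 k (by omega) (by omega), w0 (k + 1) (by omega) (by omega)]
            exact s

end Pool.Agent.FX.NB
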