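import Pool.Agent.H.MP_f13560_pr.NB.Path

/-!
# The lengths of the four paths
-/

set_option autoImplicit false

open MeasureTheory ProbabilityTheory

namespace Pool.Agent.FX.NB

variable {N : ℕ}

private theorem PaD_split (hN : 2 ≤ N) (f : ℕ → ℝ) : ∑ k ∈ Finset.range (2 * N + 1), f k =
    ∑ k ∈ (Finset.range (2 * N + 1)).filter (fun k => k + 1 ≠ N ∧ k ≠ N ∧ k ≠ N + 1), f k +
      (f (N - 1) + f N + f (N + 1)) := by
  classical
  rw [← Finset.sum_filter_add_sum_filter_not (Finset.range (2 * N + 1))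
    (fun k => k + 1 ≠ N ∧ k ≠ N ∧ k ≠ N + 1) f]
  congr 1
  have h1 : (Finset.range (2 * N + 1)).filter (fun k => ¬ (k + 1 ≠ N ∧ k ≠ N ∧ k ≠ N + 1)) =
      {N - 1, N, N + 1} := by
    ext k
    simp only [Finset.mem_filter, Finset.mem_range, Finset.mem_insert, Finset.mem_singleton]
    omega
  rw [h1, Finset.sum_insert, Finset.sum_insert, Finset.sum_singleton]
  · ring
  · simp only [Finset.mem_singleton]
    omega
  · simp only [Finset.mem_insert, Finset.mem_singleton]
    omega

private theorem PaD_c1 (hN : 2 ≤ N) : corner N (N - 1) = cl N 0 (N - 1) := by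
  unfold corner cl
  refine Prod.ext (Fin.ext ?_) (Fin.ext ?_)
  · show min (N - 1 - N) N = min 0 N
    omega
  · rfl

private theorem PaD_c2 : corner N N = cl N 0 N := by
  unfold corner cl
  refine Prod.ext (Fin.ext ?_) (Fin.ext ?_)
  · show min (N - N) N = min 0 N
    omega
  · rfl

private theorem PaD_c3 : corner N (N + 1) = cl N 1 N := by
  unfold corner cl
  refine Prod.ext (Fin.ext ?_) (Fin.ext ?_)
  · show min (N + 1 - N) N = min 1 N
    omega
  · show min (N + 1) N = min N N
    omega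

private theorem PaD_n1 (hN : 2 ≤ N) (l r : Bool) : near N l r (N - 1) =
    if l = true then cl N 1 (N - 2) else cl N 0 (N - 1) := by
  unfold near
  rw [if_neg (by omega)]
  by_cases hl : l = true
  · rw [if_pos ⟨by omega, hl⟩, if_pos hl]
  · rw [if_neg (fun h => hl h.2), if_neg (fun h => by omega), if_neg hl, PaD_c1 hN]

private theorem PaD_n2 (l r : Bool) : near N l r N = cl N 1 (N - 1) := by
  unfold near
  rw [if_pos rfl]

private theorem PaD_n3 (l r : Bool) : near N l r (N + 1) =
    if r = true then cl N 2 (N - 1) else cl N 1 N := by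
  unfold near
  rw [if_neg (by omega), if_neg (fun h => by omega)]
  by_cases hr : r = true
  · rw [if_pos ⟨rfl, hr⟩, if_pos hr]
  · rw [if_neg (fun h => hr h.2), if_neg hr, PaD_c3]

theorem len_corner (hN : 2 ≤ N) (ω : Env N) : len N (corner N) ω =
    Rs N ω + (ω (cl N 0 (N - 1)) + ω (cl N 0 N) + ω (cl N 1 N)) := by
  unfold len Rs
  rw [PaD_split hN, PaD_c1 hN, PaD_c2, PaD_c3]

theorem len_near (hN : 2 ≤ N) (l r : Bool) (ω : Env N) : len N (near N l r) ω =
    Rs N ω + (ω (if l = true then cl N 1 (N - 2) else cl N 0 (N - 1)) + ω (cl N 1 (N - 1)) +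
      ω (if r = true then cl N 2 (N - 1) else cl N 1 N)) := by
  unfold len Rs
  rw [PaD_split hN, PaD_n1 hN, PaD_n2, PaD_n3]
  congr 1
  refine Finset.sum_congr rfl fun k hk => ?_
  rw [Finset.mem_filter] at hk
  obtain ⟨-, h1, h2, h3⟩ := hk
  unfold near
  rw [if_neg h2, if_neg (fun h => h1 h.1), if_neg (fun h => h3 h.1)]

theorem Rs_congr (hN : 2 ≤ N) {ω ω' : Env N} (h : ∀ c : Fin (N + 1) × Fin (N + 1),
    c.1.val + c.2.val + 1 ≠ N → c.1.val + c.2.val ≠ N → c.1.val + c.2.val ≠ N + 1 → ω' c = ω c) :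
    Rs N ω' = Rs N ω := by
  unfold Rs
  refine Finset.sum_congr rfl fun k hk => ?_
  rw [Finset.mem_filter, Finset.mem_range] at hk
  obtain ⟨h0, h1, h2, h3⟩ := hk
  have h4 : (corner N k).1.val + (corner N k).2.val = k := by
    show min (k - N) N + min k N = k
    omega
  exact h _ (by rw [h4]; exact h1) (by rw [h4]; exact h2) (by rw [h4]; exact h3)

end Pool.Agent.FX.NB
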