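import Pool.Agent.H.MP_f13560_pr.NB.PaA
import Pool.Agent.H.MP_f13560_pr.NB.PaB
import Pool.Agent.H.MP_f13560_pr.NB.PaC
import Pool.Agent.H.MP_f13560_pr.NB.PaD

/-!
# When the corner path is the longest one
-/

set_option autoImplicit false

open MeasureTheory ProbabilityTheory

namespace Pool.Agent.FX.NB

variable {N : ℕ}

/-- Proof: let `v'` be a path. If `v' N = (0, N)` it is the corner path (`corner_of`). Otherwise let `v''` be the path
of `rep`; `ω' (v' k) ≤ ω (v'' k)` for all `k ≤ 2 N` (by levels, `IsPath.antidiag`: `(0, N)` is not on `v'`, `(0, N - 1)` is on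
level `N - 1` and `(1, N)` on level `N + 1`), so `len v' ω' ≤ len v'' ω ≤ len v ω = len corner ω'`. -/
theorem key (hN : 2 ≤ N) {v : ℕ → Fin (N + 1) × Fin (N + 1)} {ω ω' : Env N} (hω : ω ∈ cone N v)
    (h0 : ∀ c, 0 ≤ ω' c) (s1 s3 : Bool)
    (h : ∀ c, c ≠ cl N 0 N → c ≠ cl N 0 (N - 1) → c ≠ cl N 1 N → ω' c ≤ ω c)
    (h1 : ω' (cl N 0 (N - 1)) ≤ ω (if s1 = true then cl N 1 (N - 2) else cl N 0 (N - 1)))
    (h3 : ω' (cl N 1 N) ≤ ω (if s3 = true then cl N 2 (N - 1) else cl N 1 N))
    (hl : len N (corner N) ω' = len N v ω) : ω' ∈ cone N (corner N) := by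
  refine ⟨h0, fun v' hv => ?_⟩
  by_cases hc : v' N = cl N 0 N
  · refine le_of_eq ?_
    unfold len
    refine Finset.sum_congr rfl fun k hk => ?_
    rw [corner_of hv hc k (Nat.lt_succ_iff.1 (Finset.mem_range.1 hk))]
  · have hr := rep hN hv hc s1 s3
    refine le_trans ?_ ((hω.2 _ hr).trans hl.ge)
    unfold len
    refine Finset.sum_le_sum fun k hk => ?_
    have hk2 : k ≤ 2 * N := Nat.lt_succ_iff.1 (Finset.mem_range.1 hk)
    have hd := hv.antidiag hk2
    by_cases hA : v' k = cl N 0 (N - 1)
    · have hkN : k + 1 = N := by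
        rw [hA] at hd
        simp only [cl] at hd
        omega
      have hkN' : ¬ k = N + 1 := by omega
      rw [hA]
      refine h1.trans (le_of_eq ?_)
      cases s1 <;> simp [hkN, hkN', hA]
    · by_cases hB : v' k = cl N 1 N
      · have hkN : k = N + 1 := by
          rw [hB] at hd
          simp only [cl] at hd
          omega
        have hkN' : ¬ k + 1 = N := by omega
        rw [hB]
        refine h3.trans (le_of_eq ?_)
        subst hkN
        cases s3 <;> simp [hkN', hB]
      · have hC : v' k ≠ cl N 0 N := by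
          intro hC
          have hkN : k = N := by
            rw [hC] at hd
            simp only [cl] at hd
            omega
          rw [hkN] at hC
          exact hc hC
        simp only [hA, hB, and_false, if_false]
        exact h _ hC hA hB

theorem cone_congr {v v' : ℕ → Fin (N + 1) × Fin (N + 1)} (h : ∀ k ≤ 2 * N, v k = v' k) :
    cone N v = cone N v' := by
  have e : ∀ ω : Env N, len N v ω = len N v' ω := by
    intro ω
    unfold len
    refine Finset.sum_congr rfl fun k hk => ?_
    rw [h k (Nat.lt_succ_iff.1 (Finset.mem_range.1 hk))]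
  unfold cone
  simp only [e]

/-- Proof: the cone is closed (a set of nonnegative environments, and for each path a closed condition:
an intersection of closed sets). -/
theorem cone_meas (v : ℕ → Fin (N + 1) × Fin (N + 1)) : MeasurableSet (cone N v) := by
  have hc : ∀ u : ℕ → Fin (N + 1) × Fin (N + 1), Continuous (fun ω : Env N => len N u ω) := by
    intro u
    unfold len
    exact continuous_finsetSum _ fun k _ => continuous_apply _
  have e : cone N v = (⋂ c, {ω : Env N | 0 ≤ ω c}) ∩
      ⋂ (u : ℕ → Fin (N + 1) × Fin (N + 1)) (_ : IsPath N u),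
        {ω : Env N | len N u ω ≤ len N v ω} := by
    ext ω
    simp only [cone, Set.mem_inter_iff, Set.mem_iInter, Set.mem_ofPred_eq]
  rw [e]
  refine IsClosed.measurableSet (IsClosed.inter ?_ ?_)
  · exact isClosed_iInter fun c => isClosed_le continuous_const (continuous_apply c)
  · exact isClosed_iInter fun u => isClosed_iInter fun _ => isClosed_le (hc u) (hc v)

end Pool.Agent.FX.NB
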