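import Pool.Agent.FX.Expo

/-!
# Moving weight between two cells

The map `ω q, ω p ↦ ω p + r, ω q - r` (`r` a function of the other cells) keeps the sum of the two
weights and Lebesgue measure, so it keeps the law as long as all weights are nonnegative.

PROOF. Two dimensions: for `r : ℝ` and measurable `g : ℝ → ℝ → ENNReal`,
`∫⁻ s, ∫⁻ u, 1[0 < s, 0 < u, 0 < u + r, 0 < s - r] g (u + r) (s - r) = ∫⁻ s, ∫⁻ u, 1[same] g s u` for `expMeasure 1` in both
variables: by `E_int` both sides are Lebesgue integrals with the factor `exp (-(s + u))`; `lintegral_add_right_eq_self`,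
`lintegral_sub_right_eq_self` and `lintegral_lintegral_swap`. Then `lintegral_eq_of_lmarginal_eq` (for `Measure.pi`) with the set
`{q, p}` (`lmarginal_insert`, `lmarginal_singleton`), for the indicators of `A'` and `B' ∩ ...`.
-/

set_option autoImplicit false

open MeasureTheory ProbabilityTheory

namespace Pool.Agent.FX.NB

/-- the density -/
private noncomputable def dn (x : ℝ) : ENNReal := gammaPDF 1 1 x

private lemma dn_meas : Measurable dn := (measurable_gammaPDFReal 1 1).ennreal_ofReal

private lemma dn_int {f : ℝ → ENNReal} (hf : Measurable f) :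
    ∫⁻ x, f x ∂(expMeasure 1) = ∫⁻ x, dn x * f x := by
  have hm : Measurable (gammaPDF 1 1) := dn_meas
  unfold expMeasure gammaMeasure
  rw [lintegral_withDensity_eq_lintegral_mul _ hm hf]
  rfl

private lemma dn_eq {x : ℝ} (hx : 0 ≤ x) : dn x = ENNReal.ofReal (Real.exp (-x)) := by
  unfold dn
  change exponentialPDF 1 x = _
  rw [exponentialPDF_eq, if_pos hx]
  congr 1
  rw [one_mul, one_mul]

private lemma dn_mul {a b a' b' : ℝ} (ha : 0 ≤ a) (hb : 0 ≤ b) (ha' : 0 ≤ a') (hb' : 0 ≤ b')
    (h : a + b = a' + b') : dn a * dn b = dn a' * dn b' := by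
  rw [dn_eq ha, dn_eq hb, dn_eq ha', dn_eq hb', ← ENNReal.ofReal_mul (by positivity),
    ← ENNReal.ofReal_mul (by positivity), ← Real.exp_add, ← Real.exp_add]
  congr 2
  linarith

open Classical in
/-- all four weights are nonnegative -/
private noncomputable def kk (ρ a b : ℝ) : ENNReal :=
  if 0 ≤ a ∧ 0 ≤ b ∧ 0 ≤ b - ρ ∧ 0 ≤ a + ρ then 1 else 0

private lemma kk_meas (ρ : ℝ) : Measurable (fun z : ℝ × ℝ => kk ρ z.1 z.2) := by
  classical
  unfold kk
  refine Measurable.ite ?_ measurable_const measurable_const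
  have h1 : MeasurableSet {z : ℝ × ℝ | 0 ≤ z.1} := measurableSet_le measurable_const measurable_fst
  have h2 : MeasurableSet {z : ℝ × ℝ | 0 ≤ z.2} := measurableSet_le measurable_const measurable_snd
  have h3 : MeasurableSet {z : ℝ × ℝ | 0 ≤ z.2 - ρ} :=
    measurableSet_le measurable_const (measurable_snd.sub_const ρ)
  have h4 : MeasurableSet {z : ℝ × ℝ | 0 ≤ z.1 + ρ} :=
    measurableSet_le measurable_const (measurable_fst.add_const ρ)
  exact h1.inter (h2.inter (h3.inter h4))

private lemma kk_symm (ρ a b : ℝ) : kk ρ (b - ρ) (a + ρ) = kk ρ a b := by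
  classical
  unfold kk
  have h : (0 ≤ b - ρ ∧ 0 ≤ a + ρ ∧ 0 ≤ a + ρ - ρ ∧ 0 ≤ b - ρ + ρ) ↔
      (0 ≤ a ∧ 0 ≤ b ∧ 0 ≤ b - ρ ∧ 0 ≤ a + ρ) := by
    rw [add_sub_cancel_right, sub_add_cancel]
    tauto
  simp only [h]

private lemma two (ρ : ℝ) (G : ℝ → ℝ → ENNReal) (hG : Measurable (fun z : ℝ × ℝ => G z.1 z.2)) :
    ∫⁻ a, ∫⁻ b, kk ρ a b * G (b - ρ) (a + ρ) ∂(expMeasure 1) ∂(expMeasure 1) =
      ∫⁻ a, ∫⁻ b, kk ρ a b * G a b ∂(expMeasure 1) ∂(expMeasure 1) := by
  haveI := isProbabilityMeasure_expMeasure (show (0 : ℝ) < 1 by norm_num)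
  have hG' : Measurable (fun z : ℝ × ℝ => G (z.2 - ρ) (z.1 + ρ)) :=
    hG.comp ((measurable_snd.sub_const ρ).prodMk (measurable_fst.add_const ρ))
  have conv : ∀ F : ℝ → ℝ → ENNReal, Measurable (fun z : ℝ × ℝ => F z.1 z.2) →
      ∫⁻ a, ∫⁻ b, F a b ∂(expMeasure 1) ∂(expMeasure 1) =
        ∫⁻ a, ∫⁻ b, dn a * (dn b * F a b) := by
    intro F hF
    have h1 : ∀ a, Measurable (F a) := fun a => hF.comp (measurable_const.prodMk measurable_id)
    rw [dn_int (Measurable.lintegral_prod_right' hF)]
    refine lintegral_congr fun a => ?_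
    have h2 : Measurable fun b => dn b * F a b := dn_meas.mul (h1 a)
    rw [dn_int (h1 a)]
    exact (lintegral_const_mul (dn a) h2).symm
  have m1 : Measurable (fun z : ℝ × ℝ => kk ρ z.1 z.2 * G (z.2 - ρ) (z.1 + ρ)) :=
    (kk_meas ρ).mul hG'
  have m2 : Measurable (fun z : ℝ × ℝ => kk ρ z.1 z.2 * G z.1 z.2) := (kk_meas ρ).mul hG
  rw [conv _ m1, conv _ m2]
  have m3 : Measurable (fun z : ℝ × ℝ => dn z.1 * (dn z.2 *
      (kk ρ z.1 z.2 * G (z.2 - ρ) (z.1 + ρ)))) :=
    (dn_meas.comp measurable_fst).mul ((dn_meas.comp measurable_snd).mul m1)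
  have m4 : Measurable (fun z : ℝ × ℝ => dn z.1 * (dn (z.2 + ρ) *
      (kk ρ z.1 (z.2 + ρ) * G (z.2 + ρ - ρ) (z.1 + ρ)))) :=
    m3.comp (measurable_fst.prodMk (measurable_snd.add_const ρ))
  calc ∫⁻ a, ∫⁻ b, dn a * (dn b * (kk ρ a b * G (b - ρ) (a + ρ)))
      = ∫⁻ a, ∫⁻ b, dn a * (dn (b + ρ) * (kk ρ a (b + ρ) * G (b + ρ - ρ) (a + ρ))) := by
        refine lintegral_congr fun a => ?_
        exact (lintegral_add_right_eq_self
          (fun b => dn a * (dn b * (kk ρ a b * G (b - ρ) (a + ρ)))) ρ).symm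
    _ = ∫⁻ b, ∫⁻ a, dn a * (dn (b + ρ) * (kk ρ a (b + ρ) * G (b + ρ - ρ) (a + ρ))) :=
        lintegral_lintegral_swap m4.aemeasurable
    _ = ∫⁻ b, ∫⁻ a, dn (a - ρ) * (dn (b + ρ) *
          (kk ρ (a - ρ) (b + ρ) * G (b + ρ - ρ) (a - ρ + ρ))) := by
        refine lintegral_congr fun b => ?_
        exact (lintegral_sub_right_eq_self
          (fun a => dn a * (dn (b + ρ) * (kk ρ a (b + ρ) * G (b + ρ - ρ) (a + ρ)))) ρ).symm
    _ = ∫⁻ a, ∫⁻ b, dn a * (dn b * (kk ρ a b * G a b)) := by
        refine lintegral_congr fun a => lintegral_congr fun b => ?_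
        rw [kk_symm, add_sub_cancel_right, sub_add_cancel, ← mul_assoc, ← mul_assoc]
        by_cases h : 0 ≤ a ∧ 0 ≤ b ∧ 0 ≤ b - ρ ∧ 0 ≤ a + ρ
        · rw [dn_mul h.2.2.1 h.2.2.2 h.1 h.2.1 (by ring), mul_assoc, mul_assoc]
        · unfold kk
          rw [if_neg h]
          simp

theorem law_move {N : ℕ} {p q : Fin (N + 1) × Fin (N + 1)} (hpq : p ≠ q) {r : Env N → ℝ}
    (hr : Measurable r)
    (hr' : ∀ ω x y, r (Function.update (Function.update ω p x) q y) = r ω) {A B : Set (Env N)}
    (hA : MeasurableSet A) (hB : MeasurableSet B) (hA0 : ∀ ω ∈ A, 0 ≤ ω p ∧ 0 ≤ ω q)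
    (hB0 : ∀ ω ∈ B, 0 ≤ ω p ∧ 0 ≤ ω q)
    (hM : ∀ ω ∈ A, Function.update (Function.update ω q (ω p + r ω)) p (ω q - r ω) ∈ B) :
    law N A ≤ law N B := by
  classical
  haveI := isProbabilityMeasure_expMeasure (show (0 : ℝ) < 1 by norm_num)
  obtain ⟨T, hT⟩ : ∃ T : Env N → Env N, ∀ ω,
      T ω = Function.update (Function.update ω q (ω p + r ω)) p (ω q - r ω) := ⟨_, fun _ => rfl⟩
  have hTm : Measurable T := by
    have e : T = fun ω => Function.update (Function.update ω q (ω p + r ω)) p (ω q - r ω) :=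
      funext hT
    rw [e]
    have h0 : Measurable fun ω : Env N => ω p + r ω := (measurable_pi_apply p).add hr
    have h0' : Measurable fun ω : Env N => ω q - r ω := (measurable_pi_apply q).sub hr
    have h1 : Measurable fun ω : Env N => Function.update ω q (ω p + r ω) :=
      (measurable_update' (a := q)).comp (measurable_id.prodMk h0)
    exact (measurable_update' (a := p)).comp (h1.prodMk h0')
  obtain ⟨P, hP⟩ : ∃ P : Set (Env N), P = {ω | 0 ≤ ω p ∧ 0 ≤ ω q ∧ 0 ≤ ω q - r ω ∧ 0 ≤ ω p + r ω} :=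
    ⟨_, rfl⟩
  have hPm : MeasurableSet P := by
    rw [hP]
    have h1 : MeasurableSet {ω : Env N | 0 ≤ ω p} :=
      measurableSet_le measurable_const (measurable_pi_apply p)
    have h2 : MeasurableSet {ω : Env N | 0 ≤ ω q} :=
      measurableSet_le measurable_const (measurable_pi_apply q)
    have h3 : MeasurableSet {ω : Env N | 0 ≤ ω q - r ω} :=
      measurableSet_le measurable_const ((measurable_pi_apply q).sub hr)
    have h4 : MeasurableSet {ω : Env N | 0 ≤ ω p + r ω} :=
      measurableSet_le measurable_const ((measurable_pi_apply p).add hr)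
    exact h1.inter (h2.inter (h3.inter h4))
  have key : law N (P ∩ T ⁻¹' B) = law N (P ∩ B) := by
    rw [← lintegral_indicator_one (hPm.inter (hTm hB)), ← lintegral_indicator_one (hPm.inter hB)]
    refine lintegral_eq_of_lmarginal_eq (μ := fun _ => expMeasure 1) ({p, q} : Finset _)
      (measurable_one.indicator (hPm.inter (hTm hB))) (measurable_one.indicator (hPm.inter hB)) ?_
    funext x
    have hnot : p ∉ ({q} : Finset (Fin (N + 1) × Fin (N + 1))) := by
      rw [Finset.mem_singleton]
      exact hpq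
    rw [lmarginal_insert _ (measurable_one.indicator (hPm.inter (hTm hB))) hnot,
      lmarginal_insert _ (measurable_one.indicator (hPm.inter hB)) hnot]
    simp only [lmarginal_singleton]
    have hv : ∀ a b : ℝ, Function.update (Function.update x p a) q b p = a := fun a b => by
      rw [Function.update_of_ne hpq, Function.update_self]
    have hv' : ∀ a b : ℝ, Function.update (Function.update x p a) q b q = b := fun a b =>
      Function.update_self _ _ _
    have hTv : ∀ a b : ℝ, T (Function.update (Function.update x p a) q b) =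
        Function.update (Function.update x p (b - r x)) q (a + r x) := by
      intro a b
      rw [hT, hr', hv, hv', Function.update_idem, Function.update_comm hpq.symm,
        Function.update_idem]
    have hmem : ∀ a b : ℝ, Function.update (Function.update x p a) q b ∈ P ↔
        (0 ≤ a ∧ 0 ≤ b ∧ 0 ≤ b - r x ∧ 0 ≤ a + r x) := by
      intro a b
      rw [hP, Set.mem_ofPred_eq, hv, hv', hr']
    have e1 : ∀ a b : ℝ, (P ∩ T ⁻¹' B).indicator (1 : Env N → ENNReal)
        (Function.update (Function.update x p a) q b) = kk (r x) a b *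
          B.indicator (1 : Env N → ENNReal)
            (Function.update (Function.update x p (b - r x)) q (a + r x)) := by
      intro a b
      unfold kk
      by_cases h : 0 ≤ a ∧ 0 ≤ b ∧ 0 ≤ b - r x ∧ 0 ≤ a + r x
      · rw [if_pos h, one_mul]
        by_cases h' : Function.update (Function.update x p (b - r x)) q (a + r x) ∈ B
        · rw [Set.indicator_of_mem h', Set.indicator_of_mem]
          · rfl
          · exact ⟨(hmem a b).2 h, by rw [Set.mem_preimage, hTv]; exact h'⟩
        · rw [Set.indicator_of_notMem h', Set.indicator_of_notMem]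
          rintro ⟨-, h2⟩
          rw [Set.mem_preimage, hTv] at h2
          exact h' h2
      · rw [if_neg h, zero_mul, Set.indicator_of_notMem]
        rintro ⟨h1, -⟩
        exact h ((hmem a b).1 h1)
    have e2 : ∀ a b : ℝ, (P ∩ B).indicator (1 : Env N → ENNReal)
        (Function.update (Function.update x p a) q b) = kk (r x) a b *
          B.indicator (1 : Env N → ENNReal) (Function.update (Function.update x p a) q b) := by
      intro a b
      unfold kk
      by_cases h : 0 ≤ a ∧ 0 ≤ b ∧ 0 ≤ b - r x ∧ 0 ≤ a + r x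
      · rw [if_pos h, one_mul]
        by_cases h' : Function.update (Function.update x p a) q b ∈ B
        · rw [Set.indicator_of_mem h', Set.indicator_of_mem]
          exact ⟨(hmem a b).2 h, h'⟩
        · rw [Set.indicator_of_notMem h', Set.indicator_of_notMem]
          rintro ⟨-, h2⟩
          exact h' h2
      · rw [if_neg h, zero_mul, Set.indicator_of_notMem]
        rintro ⟨h1, -⟩
        exact h ((hmem a b).1 h1)
    simp only [e1, e2]
    refine two (r x) (fun a b => B.indicator (1 : Env N → ENNReal)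
      (Function.update (Function.update x p a) q b)) ?_
    have h1 : Measurable fun z : ℝ × ℝ => Function.update x p z.1 :=
      (measurable_update' (a := p)).comp (measurable_const.prodMk measurable_fst)
    have h2 : Measurable fun z : ℝ × ℝ => Function.update (Function.update x p z.1) q z.2 :=
      (measurable_update' (a := q)).comp (h1.prodMk measurable_snd)
    exact (measurable_one.indicator hB).comp h2
  have hsub : A ⊆ P ∩ T ⁻¹' B := by
    intro ω hω
    have h1 := hM ω hω
    have h2 := hB0 _ h1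
    have h3 := hA0 ω hω
    rw [Function.update_self, Function.update_of_ne hpq.symm, Function.update_self] at h2
    refine ⟨?_, ?_⟩
    · rw [hP]
      exact ⟨h3.1, h3.2, h2.1, h2.2⟩
    · rw [Set.mem_preimage, hT]
      exact h1
  calc law N A ≤ law N (P ∩ T ⁻¹' B) := measure_mono hsub
    _ = law N (P ∩ B) := key
    _ ≤ law N B := measure_mono Set.inter_subset_right

end Pool.Agent.FX.NB
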