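import Pool.Agent.H.MP_f13560_pr.NB.Key
import Pool.Agent.H.MP_f13560_pr.NB.Perm
import Pool.Agent.H.MP_f13560_pr.NB.Mov

/-!
# The piece in which weight is moved from `p1` to the corner

Cells: `q1 = (0, N - 1)`, `q = (0, N)`, `q3 = (1, N)` on the corner path, `p1 = (1, N - 2)`, `p2 = (1, N - 1)`, `p3 = (2, N - 1)`.
PROOF. Let `A` be the set on the left; if `r` let `σ` exchange `q3` and `p3`, otherwise `σ = 1`. `law A = law A'`,
`A' = {ω | ω ∘ σ ∈ A}` (`law_perm`), and `law_move` for `A'` with `p = p1`, `q = q`, the function `ω p2 - ω q1`: the new environment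
`ω'` has `ω' q = ω p1 + ω p2 - ω q1`, `ω' p1 = ω q - ω p2 + ω q1` and the other weights of `ω`. With `ω0 = ω ∘ σ` in `cone (near true r)`:
`key` for `ω0`, `ω'`, `s1 = false`, `s3 = r`: `ω' p1 ≤ ω0 p1` by the second condition; if `r` then `ω' q3 = ω0 p3`,
`ω' p3 = ω0 q3 ≤ ω0 p3` (compare `near true true` with `near true false`); lengths by `len_near`, `len_corner`, `Rs_congr`. Nonnegativity:
`ω' q ≥ 0` since `ω p1 - ω q1 ≥ ω q - ω p2 > 0`. The target: `ω' q1 < ω' p1` as `ω p2 < ω q`; if `r` then `ω' p3 ≤ ω' q3`.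
-/

set_option autoImplicit false

open MeasureTheory ProbabilityTheory

namespace Pool.Agent.FX.NB

variable {N : ℕ}

private theorem PcA_ne (hN : 2 ≤ N) :
    cl N 0 (N - 1) ≠ cl N 0 N ∧ cl N 0 (N - 1) ≠ cl N 1 N ∧ cl N 0 (N - 1) ≠ cl N 1 (N - 2) ∧
    cl N 0 (N - 1) ≠ cl N 2 (N - 1) ∧ cl N 0 N ≠ cl N 1 N ∧ cl N 0 N ≠ cl N 1 (N - 2) ∧
    cl N 0 N ≠ cl N 1 (N - 1) ∧ cl N 0 N ≠ cl N 2 (N - 1) ∧ cl N 1 N ≠ cl N 1 (N - 2) ∧
    cl N 1 N ≠ cl N 1 (N - 1) ∧ cl N 1 N ≠ cl N 2 (N - 1) ∧ cl N 1 (N - 2) ≠ cl N 1 (N - 1) ∧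
    cl N 1 (N - 2) ≠ cl N 2 (N - 1) ∧ cl N 1 (N - 1) ≠ cl N 2 (N - 1) ∧
    cl N 0 (N - 1) ≠ cl N 1 (N - 1) := by
  unfold cl
  simp only [ne_eq, Prod.mk.injEq, Fin.mk.injEq]
  refine ⟨?_, ?_, ?_, ?_, ?_, ?_, ?_, ?_, ?_, ?_, ?_, ?_, ?_, ?_, ?_⟩ <;> omega

/-- the permutation -/
private noncomputable def PcA_s (N : ℕ) (r : Bool) : Equiv.Perm (Fin (N + 1) × Fin (N + 1)) :=
  if r = true then Equiv.swap (cl N 1 N) (cl N 2 (N - 1)) else 1

private theorem PcA_s_of_ne (r : Bool) {c : Fin (N + 1) × Fin (N + 1)} (h1 : c ≠ cl N 1 N)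
    (h2 : c ≠ cl N 2 (N - 1)) : PcA_s N r c = c := by
  unfold PcA_s
  split_ifs
  · exact Equiv.swap_apply_of_ne_of_ne h1 h2
  · rfl

private theorem PcA_s_false (c : Fin (N + 1) × Fin (N + 1)) : PcA_s N false c = c := by
  unfold PcA_s
  rw [if_neg (by simp)]
  rfl

private theorem PcA_s_true : PcA_s N true (cl N 2 (N - 1)) = cl N 1 N ∧
    PcA_s N true (cl N 1 N) = cl N 2 (N - 1) := by
  unfold PcA_s
  rw [if_pos rfl]
  exact ⟨Equiv.swap_apply_right _ _, Equiv.swap_apply_left _ _⟩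

private theorem PcA_meas (N : ℕ) (r : Bool) : MeasurableSet
    {ω : Env N | ω ∈ cone N (near N true r) ∧ ω (cl N 1 (N - 1)) < ω (cl N 0 N) ∧
      ω (cl N 0 N) - ω (cl N 1 (N - 1)) ≤ ω (cl N 1 (N - 2)) - ω (cl N 0 (N - 1))} := by
  have m : ∀ c, Measurable (fun ω : Env N => ω c) := fun c => measurable_pi_apply c
  refine (cone_meas _).inter (MeasurableSet.inter ?_ ?_)
  · exact measurableSet_lt (m _) (m _)
  · exact measurableSet_le ((m _).sub (m _)) ((m _).sub (m _))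

private theorem PcA_meas2 (N : ℕ) (r : Bool) : MeasurableSet
    {ω : Env N | ω ∈ cone N (corner N) ∧ ω (cl N 0 (N - 1)) < ω (cl N 1 (N - 2)) ∧
        (r = true → ω (cl N 2 (N - 1)) ≤ ω (cl N 1 N))} := by
  have m : ∀ c, Measurable (fun ω : Env N => ω c) := fun c => measurable_pi_apply c
  have h : MeasurableSet {ω : Env N | r = true → ω (cl N 2 (N - 1)) ≤ ω (cl N 1 N)} := by
    cases r
    · have e : {ω : Env N | false = true → ω (cl N 2 (N - 1)) ≤ ω (cl N 1 N)} = Set.univ := by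
        ext ω
        simp
      rw [e]
      exact MeasurableSet.univ
    · have e : {ω : Env N | true = true → ω (cl N 2 (N - 1)) ≤ ω (cl N 1 N)} =
          {ω : Env N | ω (cl N 2 (N - 1)) ≤ ω (cl N 1 N)} := by
        ext ω
        simp
      rw [e]
      exact measurableSet_le (m _) (m _)
  exact (cone_meas _).inter ((measurableSet_lt (m _) (m _)).inter h)

private theorem PcA_move (hN : 2 ≤ N) (r : Bool) (ω : Env N)
    (h1 : (fun c => ω (PcA_s N r c)) ∈ cone N (near N true r))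
    (h2 : ω (cl N 1 (N - 1)) < ω (cl N 0 N))
    (h3 : ω (cl N 0 N) - ω (cl N 1 (N - 1)) ≤ ω (cl N 1 (N - 2)) - ω (cl N 0 (N - 1)))
    (ω' : Env N) (e1 : ω' (cl N 0 N) = ω (cl N 1 (N - 2)) + (ω (cl N 1 (N - 1)) - ω (cl N 0 (N - 1))))
    (e2 : ω' (cl N 1 (N - 2)) = ω (cl N 0 N) - (ω (cl N 1 (N - 1)) - ω (cl N 0 (N - 1))))
    (e3 : ∀ c, c ≠ cl N 0 N → c ≠ cl N 1 (N - 2) → ω' c = ω c) :
    ω' ∈ cone N (corner N) ∧ ω' (cl N 0 (N - 1)) < ω' (cl N 1 (N - 2)) ∧
        (r = true → ω' (cl N 2 (N - 1)) ≤ ω' (cl N 1 N)) := by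
  obtain ⟨n1, n2, n3, n4, n5, n6, n7, n8, n9, n10, n11, n12, n13, n14, n15⟩ := PcA_ne hN
  have hpos : ∀ c, 0 ≤ ω c := by
    intro c
    have h := h1.1 ((PcA_s N r).symm c)
    simpa using h
  -- the comparison for `r`
  have hr : r = true → ω (cl N 2 (N - 1)) ≤ ω (cl N 1 N) := by
    intro hrt
    subst hrt
    have h4 := h1.2 _ (near_path hN true false)
    rw [len_near hN, len_near hN] at h4
    simp only [if_true, Bool.false_eq_true, if_false] at h4
    rw [PcA_s_true.1, PcA_s_true.2] at h4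
    linarith
  have v1 : ω' (cl N 0 (N - 1)) = ω (cl N 0 (N - 1)) := e3 _ n1 n3
  have v2 : ω' (cl N 1 N) = ω (cl N 1 N) := e3 _ n5.symm n9
  have v3 : ω' (cl N 2 (N - 1)) = ω (cl N 2 (N - 1)) := e3 _ n8.symm n13.symm
  have s1 : PcA_s N r (cl N 0 (N - 1)) = cl N 0 (N - 1) := PcA_s_of_ne r n2 n4
  have s2 : PcA_s N r (cl N 1 (N - 2)) = cl N 1 (N - 2) := PcA_s_of_ne r n9.symm n13
  have s3 : PcA_s N r (cl N 1 (N - 1)) = cl N 1 (N - 1) := PcA_s_of_ne r n10.symm n14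
  have s4 : ω (PcA_s N r (if r = true then cl N 2 (N - 1) else cl N 1 N)) = ω (cl N 1 N) := by
    cases r
    · rw [if_neg (by simp), PcA_s_false]
    · rw [if_pos rfl, PcA_s_true.1]
  have hp1 := hpos (cl N 0 (N - 1))
  have hp2 := hpos (cl N 1 (N - 1))
  refine ⟨key hN h1 ?_ false r ?_ ?_ ?_ ?_, ?_, ?_⟩
  · intro c
    rcases eq_or_ne c (cl N 0 N) with rfl | hc1
    · rw [e1]; linarith
    rcases eq_or_ne c (cl N 1 (N - 2)) with rfl | hc2
    · rw [e2]; linarith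
    rw [e3 c hc1 hc2]
    exact hpos c
  · intro c hc1 hc2 hc3
    rcases eq_or_ne c (cl N 1 (N - 2)) with rfl | hc4
    · rw [e2, s2]; linarith
    rw [e3 c hc1 hc4]
    rcases eq_or_ne c (cl N 2 (N - 1)) with rfl | hc5
    · cases r
      · rw [PcA_s_false]
      · rw [PcA_s_true.1]
        exact hr rfl
    · rw [PcA_s_of_ne r hc3 hc5]
  · simp only [Bool.false_eq_true, if_false]
    rw [v1, s1]
  · rw [v2]
    exact s4.ge
  · rw [len_corner hN, len_near hN]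
    have hR : Rs N ω' = Rs N (fun c => ω (PcA_s N r c)) := by
      refine Rs_congr hN fun c hc1 hc2 hc3 => ?_
      have m1 : c ≠ cl N 0 N := by
        rintro rfl
        unfold cl at hc2
        simp only at hc2
        omega
      have m2 : c ≠ cl N 1 (N - 2) := by
        rintro rfl
        unfold cl at hc1
        simp only at hc1
        omega
      have m3 : c ≠ cl N 1 N := by
        rintro rfl
        unfold cl at hc3
        simp only at hc3
        omega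
      have m4 : c ≠ cl N 2 (N - 1) := by
        rintro rfl
        unfold cl at hc3
        simp only at hc3
        omega
      rw [e3 c m1 m2, PcA_s_of_ne r m3 m4]
    rw [hR, v1, v2, e1]
    simp only [if_true]
    rw [s2, s3, s4]
    ring
  · rw [v1, e2]; linarith
  · intro hrt
    rw [v2, v3]
    exact hr hrt

theorem pcA (hN : 2 ≤ N) (r : Bool) :
    law N {ω | ω ∈ cone N (near N true r) ∧ ω (cl N 1 (N - 1)) < ω (cl N 0 N) ∧
      ω (cl N 0 N) - ω (cl N 1 (N - 1)) ≤ ω (cl N 1 (N - 2)) - ω (cl N 0 (N - 1))} ≤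
      law N {ω | ω ∈ cone N (corner N) ∧ ω (cl N 0 (N - 1)) < ω (cl N 1 (N - 2)) ∧
        (r = true → ω (cl N 2 (N - 1)) ≤ ω (cl N 1 N))} := by
  obtain ⟨n1, n2, n3, n4, n5, n6, n7, n8, n9, n10, n11, n12, n13, n14, n15⟩ := PcA_ne hN
  have s1 : PcA_s N r (cl N 0 (N - 1)) = cl N 0 (N - 1) := PcA_s_of_ne r n2 n4
  have s2 : PcA_s N r (cl N 1 (N - 2)) = cl N 1 (N - 2) := PcA_s_of_ne r n9.symm n13
  have s3 : PcA_s N r (cl N 1 (N - 1)) = cl N 1 (N - 1) := PcA_s_of_ne r n10.symm n14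
  have s0 : PcA_s N r (cl N 0 N) = cl N 0 N := PcA_s_of_ne r n5 n8
  rw [← law_perm N (PcA_s N r)]
  refine law_move (p := cl N 1 (N - 2)) (q := cl N 0 N)
    (r := fun ω => ω (cl N 1 (N - 1)) - ω (cl N 0 (N - 1))) n6.symm ?_ ?_ ?_ (PcA_meas2 N r)
    ?_ ?_ ?_
  · exact (measurable_pi_apply _).sub (measurable_pi_apply _)
  · intro ω x y
    beta_reduce
    rw [Function.update_of_ne n7.symm, Function.update_of_ne n12.symm,
      Function.update_of_ne n1, Function.update_of_ne n3]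
  · have hm : Measurable (fun (ω : Env N) (c : Fin (N + 1) × Fin (N + 1)) => ω (PcA_s N r c)) :=
      measurable_pi_lambda _ fun c => measurable_pi_apply _
    exact hm (PcA_meas N r)
  · intro ω hω
    have h := hω.1.1
    have h1 := h (cl N 1 (N - 2))
    have h2 := h (cl N 0 N)
    beta_reduce at h1 h2
    rw [s2] at h1
    rw [s0] at h2
    exact ⟨h1, h2⟩
  · intro ω hω
    exact ⟨hω.1.1 _, hω.1.1 _⟩
  · intro ω hω
    obtain ⟨h1, h2, h3⟩ := hω
    beta_reduce at h2 h3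
    rw [s0, s3] at h2
    rw [s0, s1, s2, s3] at h3
    refine PcA_move hN r ω h1 h2 h3 _ ?_ ?_ ?_
    · rw [Function.update_of_ne n6, Function.update_self]
    · rw [Function.update_self]
    · intro c hc1 hc2
      rw [Function.update_of_ne hc2, Function.update_of_ne hc1]

end Pool.Agent.FX.NB
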