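import Pool.Agent.H.MP_f13560_pr.NB.Key
import Pool.Agent.H.MP_f13560_pr.NB.Perm
import Pool.Agent.H.MP_f13560_pr.NB.Mov

/-!
# The piece in which weight is moved from `p3` to the corner

Cells: `q1 = (0, N - 1)`, `q = (0, N)`, `q3 = (1, N)` on the corner path, `p1 = (1, N - 2)`, `p2 = (1, N - 1)`, `p3 = (2, N - 1)`.
PROOF. Let `A` be the set on the left; if `l` let `σ` exchange `q1` and `p1`, otherwise `σ = 1`. `law A = law A'`,
`A' = {ω | ω ∘ σ ∈ A}` (`law_perm`), and `law_move` for `A'` with `p = p3`, `q = q`, the function `ω p2 - ω q3`: the new environment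
`ω'` has `ω' q = ω p3 + ω p2 - ω q3`, `ω' p3 = ω q - ω p2 + ω q3` and the other weights of `ω`. With `ω0 = ω ∘ σ` in `cone (near l true)`:
`key` for `ω0`, `ω'`, `s1 = l`, `s3 = false`: `ω' p3 ≤ ω0 p3` by the second condition; if `l` then `ω' q1 = ω0 p1`,
`ω' p1 = ω0 q1 ≤ ω0 p1` (compare `near true true` with `near false true`); lengths by `len_near`, `len_corner`, `Rs_congr`. Nonnegativity:
`ω' q ≥ 0` since `ω p3 - ω q3 ≥ ω q - ω p2 > 0`. The target: `ω' q3 < ω' p3` as `ω p2 < ω q`; if `l` then `ω' p1 ≤ ω' q1`.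
-/

set_option autoImplicit false

open MeasureTheory ProbabilityTheory

namespace Pool.Agent.FX.NB

variable {N : ℕ}

private theorem PcB_ne {a b c d : ℕ} (h : min a N ≠ min c N ∨ min b N ≠ min d N) :
    cl N a b ≠ cl N c d := by
  intro e
  have h1 : (cl N a b).1.val = (cl N c d).1.val := by rw [e]
  have h2 : (cl N a b).2.val = (cl N c d).2.val := by rw [e]
  simp only [cl] at h1 h2
  omega

private theorem PcB_core (hN : 2 ≤ N) (l : Bool) {ω ω0 ω' : Env N}
    (h0 : ω0 ∈ cone N (near N l true))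
    (e1 : ω0 (cl N 0 (N - 1)) = if l = true then ω (cl N 1 (N - 2)) else ω (cl N 0 (N - 1)))
    (e2 : ω0 (cl N 1 (N - 2)) = if l = true then ω (cl N 0 (N - 1)) else ω (cl N 1 (N - 2)))
    (e3 : ∀ c, c ≠ cl N 0 (N - 1) → c ≠ cl N 1 (N - 2) → ω0 c = ω c)
    (c1 : ω (cl N 1 (N - 1)) < ω (cl N 0 N))
    (c2 : ω (cl N 0 N) - ω (cl N 1 (N - 1)) ≤ ω (cl N 2 (N - 1)) - ω (cl N 1 N))
    (f1 : ω' (cl N 0 N) = ω (cl N 2 (N - 1)) + (ω (cl N 1 (N - 1)) - ω (cl N 1 N)))
    (f2 : ω' (cl N 2 (N - 1)) = ω (cl N 0 N) - (ω (cl N 1 (N - 1)) - ω (cl N 1 N)))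
    (f3 : ∀ c, c ≠ cl N 0 N → c ≠ cl N 2 (N - 1) → ω' c = ω c) :
    ω' ∈ cone N (corner N) ∧ (l = true → ω' (cl N 1 (N - 2)) ≤ ω' (cl N 0 (N - 1))) ∧
      ω' (cl N 1 N) < ω' (cl N 2 (N - 1)) := by
  have g1 : ω' (cl N 0 (N - 1)) = ω (cl N 0 (N - 1)) :=
    f3 _ (PcB_ne (by omega)) (PcB_ne (by omega))
  have g2 : ω' (cl N 1 (N - 2)) = ω (cl N 1 (N - 2)) :=
    f3 _ (PcB_ne (by omega)) (PcB_ne (by omega))
  have g3 : ω' (cl N 1 N) = ω (cl N 1 N) := f3 _ (PcB_ne (by omega)) (PcB_ne (by omega))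
  have a1 : ω0 (cl N 0 N) = ω (cl N 0 N) := e3 _ (PcB_ne (by omega)) (PcB_ne (by omega))
  have a2 : ω0 (cl N 1 (N - 1)) = ω (cl N 1 (N - 1)) :=
    e3 _ (PcB_ne (by omega)) (PcB_ne (by omega))
  have a3 : ω0 (cl N 2 (N - 1)) = ω (cl N 2 (N - 1)) :=
    e3 _ (PcB_ne (by omega)) (PcB_ne (by omega))
  have a4 : ω0 (cl N 1 N) = ω (cl N 1 N) := e3 _ (PcB_ne (by omega)) (PcB_ne (by omega))
  have hle : l = true → ω0 (cl N 0 (N - 1)) ≤ ω0 (cl N 1 (N - 2)) := by
    intro hl
    have h := h0.2 (near N false true) (near_path hN false true)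
    rw [hl, len_near hN, len_near hN] at h
    simp only [if_true, if_false, Bool.false_eq_true] at h
    linarith
  have hif : ω0 (if l = true then cl N 1 (N - 2) else cl N 0 (N - 1)) = ω (cl N 0 (N - 1)) := by
    cases l
    · simpa using e1
    · simpa using e2
  have hq1 : 0 ≤ ω (cl N 0 (N - 1)) := by
    rw [← hif]
    exact h0.1 _
  have hp1 : 0 ≤ ω (cl N 1 (N - 2)) := by
    cases l
    · have h := h0.1 (cl N 1 (N - 2))
      rw [e2] at h
      simpa using h
    · have h := h0.1 (cl N 0 (N - 1))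
      rw [e1] at h
      simpa using h
  have hnn : ∀ c, 0 ≤ ω c := by
    intro c
    by_cases h1 : c = cl N 0 (N - 1)
    · rw [h1]; exact hq1
    · by_cases h2 : c = cl N 1 (N - 2)
      · rw [h2]; exact hp1
      · rw [← e3 c h1 h2]
        exact h0.1 c
  have hnn' : ∀ c, 0 ≤ ω' c := by
    intro c
    by_cases h1 : c = cl N 0 N
    · rw [h1, f1]
      have := hnn (cl N 0 N)
      linarith
    · by_cases h2 : c = cl N 2 (N - 1)
      · rw [h2, f2]
        have := hnn (cl N 1 N)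
        linarith
      · rw [f3 c h1 h2]
        exact hnn c
  have hRs : Rs N ω' = Rs N ω0 := by
    refine Rs_congr hN fun c h1 h2 h3 => ?_
    have m : ∀ a b : ℕ, (min a N + min b N + 1 = N ∨ min a N + min b N = N ∨
        min a N + min b N = N + 1) → c ≠ cl N a b := by
      intro a b hab e
      have k1 : c.1.val = min a N := by rw [e]; rfl
      have k2 : c.2.val = min b N := by rw [e]; rfl
      omega
    rw [f3 c (m _ _ (by omega)) (m _ _ (by omega)), e3 c (m _ _ (by omega)) (m _ _ (by omega))]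
  refine ⟨?_, ?_, ?_⟩
  · refine key hN h0 hnn' l false ?_ ?_ ?_ ?_
    · intro c h1 h2 h3
      by_cases h4 : c = cl N 2 (N - 1)
      · rw [h4, f2, a3]
        linarith
      · rw [f3 c h1 h4]
        by_cases h5 : c = cl N 1 (N - 2)
        · rw [h5]
          cases l
          · rw [e2]
            simp
          · have h6 := hle rfl
            rw [e1] at h6
            simpa using h6
        · rw [e3 c h2 h5]
    · rw [g1, hif]
    · rw [g3]
      simp only [if_false, Bool.false_eq_true]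
      rw [a4]
    · rw [len_corner hN, len_near hN, hRs, g1, f1, g3, hif, a2]
      simp only [if_true]
      rw [a3]
      ring
  · intro hl
    rw [g1, g2]
    have h6 := hle hl
    rw [e1, e2, if_pos hl, if_pos hl] at h6
    exact h6
  · rw [g3, f2]
    linarith

theorem pcB (hN : 2 ≤ N) (l : Bool) :
    law N {ω | ω ∈ cone N (near N l true) ∧ ω (cl N 1 (N - 1)) < ω (cl N 0 N) ∧
      ω (cl N 0 N) - ω (cl N 1 (N - 1)) ≤ ω (cl N 2 (N - 1)) - ω (cl N 1 N)} ≤
      law N {ω | ω ∈ cone N (corner N) ∧ (l = true → ω (cl N 1 (N - 2)) ≤ ω (cl N 0 (N - 1))) ∧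
        ω (cl N 1 N) < ω (cl N 2 (N - 1))} := by
  obtain ⟨σ, hσ1, hσ2, hσ3⟩ : ∃ σ : Equiv.Perm (Fin (N + 1) × Fin (N + 1)),
      σ (cl N 0 (N - 1)) = (if l = true then cl N 1 (N - 2) else cl N 0 (N - 1)) ∧
      σ (cl N 1 (N - 2)) = (if l = true then cl N 0 (N - 1) else cl N 1 (N - 2)) ∧
      ∀ c, c ≠ cl N 0 (N - 1) → c ≠ cl N 1 (N - 2) → σ c = c := by
    cases l
    · exact ⟨1, by simp, by simp, fun c _ _ => rfl⟩
    · exact ⟨Equiv.swap (cl N 0 (N - 1)) (cl N 1 (N - 2)), by simp, by simp,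
        fun c h1 h2 => Equiv.swap_apply_of_ne_of_ne h1 h2⟩
  have hev : ∀ c : Fin (N + 1) × Fin (N + 1), Measurable fun ω : Env N => ω c :=
    fun c => measurable_pi_apply c
  rw [← law_perm N σ]
  have hAm : MeasurableSet {ω : Env N | ω ∈ cone N (near N l true) ∧
      ω (cl N 1 (N - 1)) < ω (cl N 0 N) ∧
      ω (cl N 0 N) - ω (cl N 1 (N - 1)) ≤ ω (cl N 2 (N - 1)) - ω (cl N 1 N)} := by
    have h1 : MeasurableSet {ω : Env N | ω (cl N 1 (N - 1)) < ω (cl N 0 N)} :=
      measurableSet_lt (hev _) (hev _)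
    have h2 : MeasurableSet {ω : Env N | ω (cl N 0 N) - ω (cl N 1 (N - 1)) ≤
        ω (cl N 2 (N - 1)) - ω (cl N 1 N)} :=
      measurableSet_le ((hev _).sub (hev _)) ((hev _).sub (hev _))
    exact (cone_meas _).inter (h1.inter h2)
  refine law_move (p := cl N 2 (N - 1)) (q := cl N 0 N) (PcB_ne (by omega))
    (r := fun ω => ω (cl N 1 (N - 1)) - ω (cl N 1 N)) ((hev _).sub (hev _)) ?_ ?_ ?_ ?_ ?_ ?_
  · intro ω x y
    have n1 : cl N 1 (N - 1) ≠ cl N 0 N := PcB_ne (by omega)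
    have n2 : cl N 1 (N - 1) ≠ cl N 2 (N - 1) := PcB_ne (by omega)
    have n3 : cl N 1 N ≠ cl N 0 N := PcB_ne (by omega)
    have n4 : cl N 1 N ≠ cl N 2 (N - 1) := PcB_ne (by omega)
    show Function.update (Function.update ω (cl N 2 (N - 1)) x) (cl N 0 N) y (cl N 1 (N - 1)) -
      Function.update (Function.update ω (cl N 2 (N - 1)) x) (cl N 0 N) y (cl N 1 N) = _
    rw [Function.update_of_ne n1, Function.update_of_ne n2, Function.update_of_ne n3,
      Function.update_of_ne n4]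
  · have hm : Measurable fun (ω : Env N) (c : Fin (N + 1) × Fin (N + 1)) => ω (σ c) :=
      measurable_pi_lambda _ fun c => hev (σ c)
    exact hm hAm
  · have h1 : MeasurableSet {ω : Env N | l = true →
        ω (cl N 1 (N - 2)) ≤ ω (cl N 0 (N - 1))} := by
      cases l
      · simp
      · simp only [forall_const]
        exact measurableSet_le (hev _) (hev _)
    have h2 : MeasurableSet {ω : Env N | ω (cl N 1 N) < ω (cl N 2 (N - 1))} :=
      measurableSet_lt (hev _) (hev _)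
    exact (cone_meas _).inter (h1.inter h2)
  · intro ω hω
    have h1 := hω.1.1 (cl N 2 (N - 1))
    have h2 := hω.1.1 (cl N 0 N)
    have h3 : σ (cl N 2 (N - 1)) = cl N 2 (N - 1) :=
      hσ3 _ (PcB_ne (by omega)) (PcB_ne (by omega))
    have h4 : σ (cl N 0 N) = cl N 0 N := hσ3 _ (PcB_ne (by omega)) (PcB_ne (by omega))
    simp only [h3] at h1
    simp only [h4] at h2
    exact ⟨h1, h2⟩
  · intro ω hω
    exact ⟨hω.1.1 _, hω.1.1 _⟩
  · intro ω hω
    have n1 : cl N 0 N ≠ cl N 2 (N - 1) := PcB_ne (by omega)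
    obtain ⟨b1, b2, b3⟩ := hω
    have h1 : σ (cl N 1 (N - 1)) = cl N 1 (N - 1) :=
      hσ3 _ (PcB_ne (by omega)) (PcB_ne (by omega))
    have h2 : σ (cl N 0 N) = cl N 0 N := hσ3 _ (PcB_ne (by omega)) (PcB_ne (by omega))
    have h3 : σ (cl N 2 (N - 1)) = cl N 2 (N - 1) :=
      hσ3 _ (PcB_ne (by omega)) (PcB_ne (by omega))
    have h4 : σ (cl N 1 N) = cl N 1 N := hσ3 _ (PcB_ne (by omega)) (PcB_ne (by omega))
    simp only [h1, h2] at b2
    simp only [h1, h2, h3, h4] at b3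
    refine PcB_core hN l (ω := ω) b1 ?_ ?_ ?_ b2 b3 ?_ ?_ ?_
    · show ω (σ (cl N 0 (N - 1))) = _
      rw [hσ1]
      split_ifs <;> rfl
    · show ω (σ (cl N 1 (N - 2))) = _
      rw [hσ2]
      split_ifs <;> rfl
    · intro c k1 k2
      show ω (σ c) = _
      rw [hσ3 c k1 k2]
    · rw [Function.update_of_ne n1, Function.update_self]
    · rw [Function.update_self]
    · intro c k1 k2
      rw [Function.update_of_ne k2, Function.update_of_ne k1]

end Pool.Agent.FX.NB
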