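import Pool.Agent.H.MP_f13560_pr.NB.Key
import Pool.Agent.H.MP_f13560_pr.NB.Mov

/-!
# The last piece

Cells: `q1 = (0, N - 1)`, `q = (0, N)`, `q3 = (1, N)` on the corner path, `p1 = (1, N - 2)`, `p2 = (1, N - 1)`, `p3 = (2, N - 1)`.
PROOF. `law_move` with `p = p1`, `q = q`, the function `ω p2 + ω p3 - ω q1 - ω q3`: the new environment
`ω'` has `ω' q = ω p1 + ω p2 + ω p3 - ω q1 - ω q3`, `ω' p1 = ω q - ω p2 - ω p3 + ω q1 + ω q3` and the other weights of `ω`.
`key` for `ω`, `ω'`, `s1 = s3 = false`: `ω' p1 ≤ ω p1` since the corner path is not longer than `near true true`. Nonnegativity: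
`ω' p1 = ω q1 + (ω q - ω p2) - (ω p3 - ω q3) > ω q1 ≥ 0`; `ω' q ≥ ω q ≥ 0` again since the corner path is not longer. The target:
`ω' q1 < ω' p1` (just shown); `ω q3 < ω p3`: `ω p3 - ω q3 ≥ (ω q - ω p2) - (ω p1 - ω q1) > 0`.
-/

set_option autoImplicit false

open MeasureTheory ProbabilityTheory

namespace Pool.Agent.FX.NB

variable {N : ℕ}

private theorem ne_of {a b a' b' : ℕ} (h : min a N ≠ min a' N ∨ min b N ≠ min b' N) :
    cl N a b ≠ cl N a' b' := by
  intro he
  have h1 : min a N = min a' N := congrArg (fun c : Fin (N + 1) × Fin (N + 1) => c.1.val) he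
  have h2 : min b N = min b' N := congrArg (fun c : Fin (N + 1) × Fin (N + 1) => c.2.val) he
  rcases h with h | h
  · exact h h1
  · exact h h2

theorem pcC (hN : 2 ≤ N) :
    law N {ω | ω ∈ cone N (near N true true) ∧
      ω (cl N 1 (N - 2)) - ω (cl N 0 (N - 1)) < ω (cl N 0 N) - ω (cl N 1 (N - 1)) ∧
      ω (cl N 2 (N - 1)) - ω (cl N 1 N) < ω (cl N 0 N) - ω (cl N 1 (N - 1))} ≤
      law N {ω | ω ∈ cone N (corner N) ∧ ω (cl N 0 (N - 1)) < ω (cl N 1 (N - 2)) ∧
        ω (cl N 1 N) < ω (cl N 2 (N - 1))} := by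
  have mp : ∀ c : Fin (N + 1) × Fin (N + 1), Measurable fun ω : Env N => ω c :=
    fun c => measurable_pi_apply c
  have n1 : cl N 1 (N - 2) ≠ cl N 0 N := ne_of (by omega)
  have n2 : cl N 1 (N - 1) ≠ cl N 0 N := ne_of (by omega)
  have n3 : cl N 2 (N - 1) ≠ cl N 0 N := ne_of (by omega)
  have n4 : cl N 0 (N - 1) ≠ cl N 0 N := ne_of (by omega)
  have n5 : cl N 1 N ≠ cl N 0 N := ne_of (by omega)
  have m2 : cl N 1 (N - 1) ≠ cl N 1 (N - 2) := ne_of (by omega)
  have m3 : cl N 2 (N - 1) ≠ cl N 1 (N - 2) := ne_of (by omega)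
  have m4 : cl N 0 (N - 1) ≠ cl N 1 (N - 2) := ne_of (by omega)
  have m5 : cl N 1 N ≠ cl N 1 (N - 2) := ne_of (by omega)
  have mr : Measurable fun ω : Env N => ω (cl N 1 (N - 1)) + ω (cl N 2 (N - 1)) -
      ω (cl N 0 (N - 1)) - ω (cl N 1 N) :=
    ((((mp _).add (mp _)).sub (mp _)).sub (mp _))
  have mA : MeasurableSet {ω : Env N | ω ∈ cone N (near N true true) ∧
      ω (cl N 1 (N - 2)) - ω (cl N 0 (N - 1)) < ω (cl N 0 N) - ω (cl N 1 (N - 1)) ∧
      ω (cl N 2 (N - 1)) - ω (cl N 1 N) < ω (cl N 0 N) - ω (cl N 1 (N - 1))} :=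
    (cone_meas _).inter ((measurableSet_lt ((mp _).sub (mp _)) ((mp _).sub (mp _))).inter
      (measurableSet_lt ((mp _).sub (mp _)) ((mp _).sub (mp _))))
  have mB : MeasurableSet {ω : Env N | ω ∈ cone N (corner N) ∧
      ω (cl N 0 (N - 1)) < ω (cl N 1 (N - 2)) ∧ ω (cl N 1 N) < ω (cl N 2 (N - 1))} :=
    (cone_meas _).inter ((measurableSet_lt (mp _) (mp _)).inter (measurableSet_lt (mp _) (mp _)))
  refine law_move (p := cl N 1 (N - 2)) (q := cl N 0 N) n1 mr ?_ mA mB
    (fun ω h => ⟨h.1.1 _, h.1.1 _⟩) (fun ω h => ⟨h.1.1 _, h.1.1 _⟩) ?_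
  · intro ω x y
    show Function.update (Function.update ω (cl N 1 (N - 2)) x) (cl N 0 N) y (cl N 1 (N - 1)) +
      Function.update (Function.update ω (cl N 1 (N - 2)) x) (cl N 0 N) y (cl N 2 (N - 1)) -
      Function.update (Function.update ω (cl N 1 (N - 2)) x) (cl N 0 N) y (cl N 0 (N - 1)) -
      Function.update (Function.update ω (cl N 1 (N - 2)) x) (cl N 0 N) y (cl N 1 N) = _
    rw [Function.update_of_ne n2, Function.update_of_ne m2, Function.update_of_ne n3,
      Function.update_of_ne m3, Function.update_of_ne n4, Function.update_of_ne m4,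
      Function.update_of_ne n5, Function.update_of_ne m5]
  · rintro ω ⟨hω, hA1, hA2⟩
    obtain ⟨ω', hω'⟩ : ∃ ω' : Env N, ω' = Function.update (Function.update ω (cl N 0 N)
        (ω (cl N 1 (N - 2)) + (ω (cl N 1 (N - 1)) + ω (cl N 2 (N - 1)) -
          ω (cl N 0 (N - 1)) - ω (cl N 1 N)))) (cl N 1 (N - 2))
        (ω (cl N 0 N) - (ω (cl N 1 (N - 1)) + ω (cl N 2 (N - 1)) -
          ω (cl N 0 (N - 1)) - ω (cl N 1 N))) := ⟨_, rfl⟩
    show Function.update (Function.update ω (cl N 0 N)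
        (ω (cl N 1 (N - 2)) + (ω (cl N 1 (N - 1)) + ω (cl N 2 (N - 1)) -
          ω (cl N 0 (N - 1)) - ω (cl N 1 N)))) (cl N 1 (N - 2))
        (ω (cl N 0 N) - (ω (cl N 1 (N - 1)) + ω (cl N 2 (N - 1)) -
          ω (cl N 0 (N - 1)) - ω (cl N 1 N))) ∈ _
    rw [← hω']
    have e1 : ω' (cl N 1 (N - 2)) = ω (cl N 0 N) - (ω (cl N 1 (N - 1)) + ω (cl N 2 (N - 1)) -
          ω (cl N 0 (N - 1)) - ω (cl N 1 N)) := by
      rw [hω', Function.update_self]
    have e2 : ω' (cl N 0 N) = ω (cl N 1 (N - 2)) + (ω (cl N 1 (N - 1)) + ω (cl N 2 (N - 1)) -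
          ω (cl N 0 (N - 1)) - ω (cl N 1 N)) := by
      rw [hω', Function.update_of_ne n1.symm, Function.update_self]
    have e3 : ∀ c, c ≠ cl N 1 (N - 2) → c ≠ cl N 0 N → ω' c = ω c := by
      intro c h1 h2
      rw [hω', Function.update_of_ne h1, Function.update_of_ne h2]
    have f1 := e3 _ m4 n4
    have f2 := e3 _ m5 n5
    have f3 := e3 _ m3 n3
    have hle : len N (corner N) ω ≤ len N (near N true true) ω := hω.2 _ (corner_path N)
    rw [len_corner hN, len_near hN, if_pos rfl, if_pos rfl] at hle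
    have z : ∀ c, 0 ≤ ω c := hω.1
    have z1 := z (cl N 0 (N - 1))
    have z2 := z (cl N 0 N)
    have h0 : ∀ c, 0 ≤ ω' c := by
      intro c
      by_cases h1 : c = cl N 1 (N - 2)
      · rw [h1, e1]
        linarith
      · by_cases h2 : c = cl N 0 N
        · rw [h2, e2]
          linarith
        · rw [e3 c h1 h2]
          exact z c
    have hRs : Rs N ω' = Rs N ω := by
      refine Rs_congr hN fun c c1 c2 c3 => e3 c ?_ ?_
      · rintro rfl
        simp only [cl] at c1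
        omega
      · rintro rfl
        simp only [cl] at c2
        omega
    refine ⟨key hN hω h0 false false ?_ ?_ ?_ ?_, ?_, ?_⟩
    · intro c c1 c2 c3
      by_cases h1 : c = cl N 1 (N - 2)
      · rw [h1, e1]
        linarith
      · rw [e3 c h1 c1]
    · rw [f1, if_neg (by simp)]
    · rw [f2, if_neg (by simp)]
    · rw [len_corner hN, len_near hN, if_pos rfl, if_pos rfl, hRs, f1, f2, e2]
      ring
    · rw [f1, e1]
      linarith
    · rw [f2, f3]
      linarith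

end Pool.Agent.FX.NB
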