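import Pool.Agent.H.MP_f13560_pr.NB.PcO
import Pool.Agent.H.MP_f13560_pr.NB.PcA
import Pool.Agent.H.MP_f13560_pr.NB.PcB
import Pool.Agent.H.MP_f13560_pr.NB.PcC

/-!
# The paths near the corner path

PROOF of `near_lt`. Let `C` be the cone of the corner path. `l = r = false`: `pcO`, since `ω q ≤ ω p2` on the cone of
`near false false` (compare with the corner path). `l = true`, `r = false`: the cone is the union of the sets of `pcO` and `pcA` (the last
condition of `pcA` is the comparison with the corner path); the two targets are disjoint subsets of `C`. `l = false`, `r = true`: `pcO`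
and `pcB`. `l = r = true`: the four sets of `pcO`, `pcA`, `pcB`, `pcC` cover the cone and the four targets are disjoint subsets
of `C`. The measures are finite.

PROOF of `mir`. `law_perm` with `Equiv.prodComm`: `cone (swap ∘ v) = {ω | ω ∘ swap ∈ cone v}`, since
`v'` is a path if and only if `swap ∘ v'` is one.
-/

set_option autoImplicit false

open MeasureTheory ProbabilityTheory

namespace Pool.Agent.FX.NB

variable {N : ℕ}

private theorem Main_le (hN : 2 ≤ N) {l r : Bool} {ω : Env N} (h : ω ∈ cone N (near N l r)) :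
    ω (cl N 0 (N - 1)) + ω (cl N 0 N) + ω (cl N 1 N) ≤
      ω (if l = true then cl N 1 (N - 2) else cl N 0 (N - 1)) + ω (cl N 1 (N - 1)) +
      ω (if r = true then cl N 2 (N - 1) else cl N 1 N) := by
  have h1 := h.2 _ (corner_path N)
  rw [len_corner hN, len_near hN] at h1
  linarith

private theorem Main_meas (c d : Fin (N + 1) × Fin (N + 1)) :
    MeasurableSet {ω : Env N | ω c ≤ ω d} :=
  measurableSet_le (measurable_pi_apply c) (measurable_pi_apply d)

theorem near_lt (hN : 2 ≤ N) (l r : Bool) :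
    law N (cone N (near N l r)) < law N (cone N (corner N)) := by
  haveI := isProbabilityMeasure_expMeasure (show (0 : ℝ) < 1 by norm_num)
  haveI : IsProbabilityMeasure (law N) := by
    unfold law
    infer_instance
  have hO := pcO hN l r
  have m1 := Main_meas (N := N) (cl N 1 (N - 2)) (cl N 0 (N - 1))
  have m3 := Main_meas (N := N) (cl N 2 (N - 1)) (cl N 1 N)
  have e1 := measure_inter_add_sdiff (μ := law N) (cone N (corner N)) m1
  have e3 := measure_inter_add_sdiff (μ := law N) (cone N (corner N)) m3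
  have e13 := measure_inter_add_sdiff (μ := law N)
    (cone N (corner N) ∩ {ω : Env N | ω (cl N 1 (N - 2)) ≤ ω (cl N 0 (N - 1))}) m3
  have e13' := measure_inter_add_sdiff (μ := law N)
    (cone N (corner N) \ {ω : Env N | ω (cl N 1 (N - 2)) ≤ ω (cl N 0 (N - 1))}) m3
  rcases l with _ | _ <;> rcases r with _ | _
  · refine lt_of_le_of_lt (measure_mono ?_) (hO.trans_le (measure_mono fun ω hω => hω.1))
    intro ω hω
    have h1 := Main_le hN hω
    simp only [Bool.false_eq_true, if_false] at h1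
    exact ⟨hω, by linarith⟩
  · have hB := pcB hN false
    have hsub : cone N (near N false true) ⊆
        {ω | ω ∈ cone N (near N false true) ∧ ω (cl N 0 N) ≤ ω (cl N 1 (N - 1))} ∪
        {ω | ω ∈ cone N (near N false true) ∧ ω (cl N 1 (N - 1)) < ω (cl N 0 N) ∧
          ω (cl N 0 N) - ω (cl N 1 (N - 1)) ≤ ω (cl N 2 (N - 1)) - ω (cl N 1 N)} := by
      intro ω hω
      have h1 := Main_le hN hω
      simp only [Bool.false_eq_true, if_false, if_true] at h1
      rcases le_or_gt (ω (cl N 0 N)) (ω (cl N 1 (N - 1))) with h2 | h2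
      · exact Or.inl ⟨hω, h2⟩
      · exact Or.inr ⟨hω, h2, by linarith⟩
    refine lt_of_le_of_lt ((measure_mono hsub).trans (measure_union_le _ _)) ?_
    refine lt_of_lt_of_le (ENNReal.add_lt_add_of_lt_of_le (measure_ne_top _ _) hO hB) ?_
    rw [← e3]
    refine add_le_add (measure_mono ?_) (measure_mono ?_)
    · exact fun ω hω => ⟨hω.1, hω.2.2 rfl⟩
    · exact fun ω hω => ⟨hω.1, fun h => absurd hω.2.2 (not_lt.2 h)⟩
  · have hA := pcA hN false
    have hsub : cone N (near N true false) ⊆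
        {ω | ω ∈ cone N (near N true false) ∧ ω (cl N 0 N) ≤ ω (cl N 1 (N - 1))} ∪
        {ω | ω ∈ cone N (near N true false) ∧ ω (cl N 1 (N - 1)) < ω (cl N 0 N) ∧
          ω (cl N 0 N) - ω (cl N 1 (N - 1)) ≤ ω (cl N 1 (N - 2)) - ω (cl N 0 (N - 1))} := by
      intro ω hω
      have h1 := Main_le hN hω
      simp only [Bool.false_eq_true, if_false, if_true] at h1
      rcases le_or_gt (ω (cl N 0 N)) (ω (cl N 1 (N - 1))) with h2 | h2
      · exact Or.inl ⟨hω, h2⟩
      · exact Or.inr ⟨hω, h2, by linarith⟩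
    refine lt_of_le_of_lt ((measure_mono hsub).trans (measure_union_le _ _)) ?_
    refine lt_of_lt_of_le (ENNReal.add_lt_add_of_lt_of_le (measure_ne_top _ _) hO hA) ?_
    rw [← e1]
    refine add_le_add (measure_mono ?_) (measure_mono ?_)
    · exact fun ω hω => ⟨hω.1, hω.2.1 rfl⟩
    · exact fun ω hω => ⟨hω.1, fun h => absurd hω.2.1 (not_lt.2 h)⟩
  · have hA := pcA hN true
    have hB := pcB hN true
    have hC := pcC hN
    have hsub : cone N (near N true true) ⊆
        ({ω | ω ∈ cone N (near N true true) ∧ ω (cl N 0 N) ≤ ω (cl N 1 (N - 1))} ∪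
        {ω | ω ∈ cone N (near N true true) ∧ ω (cl N 1 (N - 1)) < ω (cl N 0 N) ∧
          ω (cl N 0 N) - ω (cl N 1 (N - 1)) ≤ ω (cl N 2 (N - 1)) - ω (cl N 1 N)}) ∪
        ({ω | ω ∈ cone N (near N true true) ∧ ω (cl N 1 (N - 1)) < ω (cl N 0 N) ∧
          ω (cl N 0 N) - ω (cl N 1 (N - 1)) ≤ ω (cl N 1 (N - 2)) - ω (cl N 0 (N - 1))} ∪
        {ω | ω ∈ cone N (near N true true) ∧
          ω (cl N 1 (N - 2)) - ω (cl N 0 (N - 1)) < ω (cl N 0 N) - ω (cl N 1 (N - 1)) ∧
          ω (cl N 2 (N - 1)) - ω (cl N 1 N) < ω (cl N 0 N) - ω (cl N 1 (N - 1))}) := by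
      intro ω hω
      rcases le_or_gt (ω (cl N 0 N)) (ω (cl N 1 (N - 1))) with h2 | h2
      · exact Or.inl (Or.inl ⟨hω, h2⟩)
      rcases le_or_gt (ω (cl N 0 N) - ω (cl N 1 (N - 1))) (ω (cl N 2 (N - 1)) - ω (cl N 1 N))
        with h3 | h3
      · exact Or.inl (Or.inr ⟨hω, h2, h3⟩)
      rcases le_or_gt (ω (cl N 0 N) - ω (cl N 1 (N - 1)))
        (ω (cl N 1 (N - 2)) - ω (cl N 0 (N - 1))) with h4 | h4
      · exact Or.inr (Or.inl ⟨hω, h2, h4⟩)
      · exact Or.inr (Or.inr ⟨hω, h4, h3⟩)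
    refine lt_of_le_of_lt ((measure_mono hsub).trans ((measure_union_le _ _).trans
      (add_le_add (measure_union_le _ _) (measure_union_le _ _)))) ?_
    refine lt_of_lt_of_le (ENNReal.add_lt_add_of_lt_of_le
      (ENNReal.add_ne_top.2 ⟨measure_ne_top _ _, measure_ne_top _ _⟩)
      (ENNReal.add_lt_add_of_lt_of_le (measure_ne_top _ _) hO hB) (add_le_add hA hC)) ?_
    rw [← e1, ← e13, ← e13']
    refine add_le_add (add_le_add (measure_mono ?_) (measure_mono ?_))
      (add_le_add (measure_mono ?_) (measure_mono ?_))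
    · exact fun ω hω => ⟨⟨hω.1, hω.2.1 rfl⟩, hω.2.2 rfl⟩
    · exact fun ω hω => ⟨⟨hω.1, hω.2.1 rfl⟩, fun h => absurd hω.2.2 (not_lt.2 h)⟩
    · exact fun ω hω => ⟨⟨hω.1, fun h => absurd hω.2.1 (not_lt.2 h)⟩, hω.2.2 rfl⟩
    · exact fun ω hω => ⟨⟨hω.1, fun h => absurd hω.2.1 (not_lt.2 h)⟩,
        fun h => absurd hω.2.2 (not_lt.2 h)⟩

private theorem Main_swap {v : ℕ → Fin (N + 1) × Fin (N + 1)} (hv : IsPath N v) :
    IsPath N fun k => (v k).swap := by
  refine ⟨?_, ?_, fun k hk => ?_⟩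
  · show (v 0).swap = (0, 0)
    rw [hv.start]
    rfl
  · show (v (2 * N)).swap = (Fin.last N, Fin.last N)
    rw [hv.stop]
    rfl
  · rcases hv.step k hk with h | h
    · exact Or.inr ⟨h.2, h.1⟩
    · exact Or.inl ⟨h.2, h.1⟩

theorem mir (v : ℕ → Fin (N + 1) × Fin (N + 1)) :
    law N (cone N fun k => (v k).swap) = law N (cone N v) := by
  rw [← law_perm N (Equiv.prodComm (Fin (N + 1)) (Fin (N + 1))) (cone N v)]
  congr 1
  ext ω
  constructor
  · rintro ⟨h1, h2⟩
    exact ⟨fun c => h1 _, fun v' hv' => h2 _ (Main_swap hv')⟩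
  · rintro ⟨h1, h2⟩
    refine ⟨fun c => h1 c.swap, fun v' hv' => ?_⟩
    exact h2 _ (Main_swap hv')

/-- All paths through `(0, N - 2)`, `(1, N - 1)`, `(2, N)` and their mirror images. -/
theorem nearCorner (hN : 2 ≤ N) {v : ℕ → Fin (N + 1) × Fin (N + 1)} (hv : IsPath N v)
    (h1 : v (N - 2) = cl N 0 (N - 2)) (h2 : v N = cl N 1 (N - 1)) (h3 : v (N + 2) = cl N 2 N) :
    law N (cone N v) < law N (cone N (corner N)) ∧
      law N (cone N fun k => (v k).swap) < law N (cone N (corner N)) := by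
  obtain ⟨l, r, h⟩ := near_of hN hv h1 h2 h3
  rw [mir, cone_congr h]
  exact ⟨near_lt hN l r, near_lt hN l r⟩

end Pool.Agent.FX.NB
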