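import Pool.Agent.H.MP_f13560_pr.NB.Path

/-!
# The four paths are paths
-/

set_option autoImplicit false

open MeasureTheory ProbabilityTheory

namespace Pool.Agent.FX.NB

variable {N : ℕ}

private theorem PaA_one (hN : 2 ≤ N) (l r : Bool) (k : ℕ) : (near N l r k).1.val =
    if k = N then 1 else if k + 1 = N ∧ l = true then 1 else if k = N + 1 ∧ r = true then 2
      else min (k - N) N := by
  unfold near
  split_ifs
  · simp only [cl]; omega
  · simp only [cl]; omega
  · simp only [cl]; omega
  · rfl

private theorem PaA_two (hN : 2 ≤ N) (l r : Bool) (k : ℕ) : (near N l r k).2.val =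
    if k = N then N - 1 else if k + 1 = N ∧ l = true then N - 2
      else if k = N + 1 ∧ r = true then N - 1 else min k N := by
  unfold near
  split_ifs
  · simp only [cl]; omega
  · simp only [cl]; omega
  · simp only [cl]; omega
  · rfl

theorem corner_path (N : ℕ) : IsPath N (corner N) := isPath_corner N

theorem near_path (hN : 2 ≤ N) (l r : Bool) : IsPath N (near N l r) := by
  refine ⟨?_, ?_, fun k hk => ?_⟩
  · refine Prod.ext (Fin.ext ?_) (Fin.ext ?_)
    · rw [PaA_one hN]
      rw [if_neg (by omega), if_neg (by omega), if_neg (by omega)]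
      simp
    · rw [PaA_two hN]
      rw [if_neg (by omega), if_neg (by omega), if_neg (by omega)]
      simp
  · refine Prod.ext (Fin.ext ?_) (Fin.ext ?_)
    · rw [PaA_one hN]
      rw [if_neg (by omega), if_neg (by omega), if_neg (by omega)]
      simp only [Fin.val_last]
      omega
    · rw [PaA_two hN]
      rw [if_neg (by omega), if_neg (by omega), if_neg (by omega)]
      simp only [Fin.val_last]
      omega
  · rw [Fin.ext_iff, Fin.ext_iff, PaA_one hN, PaA_one hN, PaA_two hN, PaA_two hN]
    cases l <;> cases r <;> simp only [and_true, and_false, if_false, Bool.false_eq_true] <;>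
      split_ifs <;> omega

end Pool.Agent.FX.NB
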