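import Pool.Agent.FX.PathL

/-!
# Paths near the upper left corner
-/

set_option autoImplicit false

open MeasureTheory ProbabilityTheory

namespace Pool.Agent.FX.NB

/-- the cell `(x, y)` -/
def cl (N x y : ℕ) : Fin (N + 1) × Fin (N + 1) := (⟨min x N, by omega⟩, ⟨min y N, by omega⟩)

/-- the four paths through `(0, N - 2)`, `(1, N - 1)`, `(2, N)` -/
def near (N : ℕ) (l r : Bool) (k : ℕ) : Fin (N + 1) × Fin (N + 1) :=
  if k = N then cl N 1 (N - 1) else if k + 1 = N ∧ l = true then cl N 1 (N - 2)
  else if k = N + 1 ∧ r = true then cl N 2 (N - 1) else corner N k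

/-- the sum over the cells of the corner path which are not on the levels `N - 1`, `N`, `N + 1` -/
noncomputable def Rs (N : ℕ) (ω : Env N) : ℝ :=
  ∑ k ∈ (Finset.range (2 * N + 1)).filter (fun k => k + 1 ≠ N ∧ k ≠ N ∧ k ≠ N + 1), ω (corner N k)

end Pool.Agent.FX.NB
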