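import Pool.Agent.H.MP_f13560_pr.NB.Box
import Pool.Agent.H.MP_f13560_pr.NB.Perm

/-!
# The first piece: all pairs are exchanged

Cells: `q1 = (0, N - 1)`, `q = (0, N)`, `q3 = (1, N)` on the corner path, `p1 = (1, N - 2)`, `p2 = (1, N - 1)`, `p3 = (2, N - 1)`.
Let `σ` exchange `q` and `p2`, also `q1` and `p1` if `l`, and `q3` and `p3` if `r`. For `ω` in the cone of `near l r` with
`ω q ≤ ω p2`, `ω ∘ σ` is in the cone of the corner path (`key` with `s1 = l`, `s3 = r`; `len_near`, `len_corner`, `Rs_congr`; if `l` then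
`ω q1 ≤ ω p1`, comparing `near l r` with `near false r`, and the same for `r`). With `law_perm`:
`law A = law {ω | ω ∘ σ ∈ A}`, and this set is in the target and disjoint to the box `Set.univ.pi (bx N c0 d0)`, which is also in
the target (`bx_sub`, `bx_pos`), where
* `l = false`: `c0 = q1`, `d0 = p1`, `k0 = N - 1`, `k1 = N`; the path `near true r` is longer than `near false r` in `ζ ∘ σ`;
* `l = true`, `r = false`: `c0 = q3`, `d0 = p3`, `k0 = N + 1`, `k1 = N`; the path `near true true` is longer;
* `l = r = true`: `c0 = q`, `d0 = (2, N - 2)`, `k0 = N`, `k1 = N - 1`; the path `near true true` with `(2, N - 2)` on level `N`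
  is longer.
-/

set_option autoImplicit false

open MeasureTheory ProbabilityTheory

namespace Pool.Agent.FX.NB

variable {N : ℕ}

private theorem O_ne {x y x' y' : ℕ} (h : min x N ≠ min x' N ∨ min y N ≠ min y' N) :
    cl N x y ≠ cl N x' y' := by
  intro hcon
  have h1 := congrArg (fun c : Fin (N + 1) × Fin (N + 1) => c.1.val) hcon
  have h2 := congrArg (fun c : Fin (N + 1) × Fin (N + 1) => c.2.val) hcon
  simp only [cl] at h1 h2
  omega

/-- the exchange -/
private def sg (N : ℕ) (l r : Bool) (c : Fin (N + 1) × Fin (N + 1)) : Fin (N + 1) × Fin (N + 1) :=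
  if c = cl N 0 N then cl N 1 (N - 1) else if c = cl N 1 (N - 1) then cl N 0 N
  else if c = cl N 0 (N - 1) then (if l = true then cl N 1 (N - 2) else cl N 0 (N - 1))
  else if c = cl N 1 (N - 2) then (if l = true then cl N 0 (N - 1) else cl N 1 (N - 2))
  else if c = cl N 1 N then (if r = true then cl N 2 (N - 1) else cl N 1 N)
  else if c = cl N 2 (N - 1) then (if r = true then cl N 1 N else cl N 2 (N - 1)) else c

private theorem O_sg (hN : 2 ≤ N) (l r : Bool) :
    sg N l r (cl N 0 N) = cl N 1 (N - 1) ∧ sg N l r (cl N 1 (N - 1)) = cl N 0 N ∧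
    sg N l r (cl N 0 (N - 1)) = (if l = true then cl N 1 (N - 2) else cl N 0 (N - 1)) ∧
    sg N l r (cl N 1 (N - 2)) = (if l = true then cl N 0 (N - 1) else cl N 1 (N - 2)) ∧
    sg N l r (cl N 1 N) = (if r = true then cl N 2 (N - 1) else cl N 1 N) ∧
    sg N l r (cl N 2 (N - 1)) = (if r = true then cl N 1 N else cl N 2 (N - 1)) := by
  refine ⟨?_, ?_, ?_, ?_, ?_, ?_⟩
  · unfold sg
    rw [if_pos rfl]
  · unfold sg
    rw [if_neg (O_ne (by omega)), if_pos rfl]
  · unfold sg
    rw [if_neg (O_ne (by omega)), if_neg (O_ne (by omega)), if_pos rfl]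
  · unfold sg
    rw [if_neg (O_ne (by omega)), if_neg (O_ne (by omega)), if_neg (O_ne (by omega)), if_pos rfl]
  · unfold sg
    rw [if_neg (O_ne (by omega)), if_neg (O_ne (by omega)), if_neg (O_ne (by omega)),
      if_neg (O_ne (by omega)), if_pos rfl]
  · unfold sg
    rw [if_neg (O_ne (by omega)), if_neg (O_ne (by omega)), if_neg (O_ne (by omega)),
      if_neg (O_ne (by omega)), if_neg (O_ne (by omega)), if_pos rfl]

private theorem O_oth (l r : Bool) {c : Fin (N + 1) × Fin (N + 1)} (h1 : c ≠ cl N 0 N)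
    (h2 : c ≠ cl N 1 (N - 1)) (h3 : c ≠ cl N 0 (N - 1)) (h4 : c ≠ cl N 1 (N - 2))
    (h5 : c ≠ cl N 1 N) (h6 : c ≠ cl N 2 (N - 1)) : sg N l r c = c := by
  unfold sg
  rw [if_neg h1, if_neg h2, if_neg h3, if_neg h4, if_neg h5, if_neg h6]

private theorem O_inv (hN : 2 ≤ N) (l r : Bool) : Function.Involutive (sg N l r) := by
  obtain ⟨s1, s2, s3, s4, s5, s6⟩ := O_sg hN l r
  intro c
  by_cases h1 : c = cl N 0 N
  · rw [h1, s1, s2]
  by_cases h2 : c = cl N 1 (N - 1)
  · rw [h2, s2, s1]
  by_cases h3 : c = cl N 0 (N - 1)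
  · rw [h3, s3]
    cases l
    · simp only [Bool.false_eq_true, if_false] at s3 ⊢
      exact s3
    · simp only [if_true] at s4 ⊢
      exact s4
  by_cases h4 : c = cl N 1 (N - 2)
  · rw [h4, s4]
    cases l
    · simp only [Bool.false_eq_true, if_false] at s4 ⊢
      exact s4
    · simp only [if_true] at s3 ⊢
      exact s3
  by_cases h5 : c = cl N 1 N
  · rw [h5, s5]
    cases r
    · simp only [Bool.false_eq_true, if_false] at s5 ⊢
      exact s5
    · simp only [if_true] at s6 ⊢
      exact s6
  by_cases h6 : c = cl N 2 (N - 1)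
  · rw [h6, s6]
    cases r
    · simp only [Bool.false_eq_true, if_false] at s6 ⊢
      exact s6
    · simp only [if_true] at s5 ⊢
      exact s5
  rw [O_oth l r h1 h2 h3 h4 h5 h6, O_oth l r h1 h2 h3 h4 h5 h6]

/-- the values after the exchange -/
private theorem O_val (hN : 2 ≤ N) (l r : Bool) (ω : Env N) :
    ω (sg N l r (cl N 0 N)) = ω (cl N 1 (N - 1)) ∧ ω (sg N l r (cl N 1 (N - 1))) = ω (cl N 0 N) ∧
    ω (sg N l r (cl N 0 (N - 1))) = ω (if l = true then cl N 1 (N - 2) else cl N 0 (N - 1)) ∧
    ω (sg N l r (cl N 1 (N - 2))) = ω (if l = true then cl N 0 (N - 1) else cl N 1 (N - 2)) ∧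
    ω (sg N l r (cl N 1 N)) = ω (if r = true then cl N 2 (N - 1) else cl N 1 N) ∧
    ω (sg N l r (cl N 2 (N - 1))) = ω (if r = true then cl N 1 N else cl N 2 (N - 1)) := by
  obtain ⟨s1, s2, s3, s4, s5, s6⟩ := O_sg hN l r
  rw [s1, s2, s3, s4, s5, s6]
  exact ⟨rfl, rfl, rfl, rfl, rfl, rfl⟩

private theorem O_l (hN : 2 ≤ N) {r : Bool} {ω : Env N} (h : ω ∈ cone N (near N true r)) :
    ω (cl N 0 (N - 1)) ≤ ω (cl N 1 (N - 2)) := by
  have h1 := h.2 (near N false r) (near_path hN false r)
  rw [len_near hN, len_near hN] at h1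
  simp only [Bool.false_eq_true, if_false, if_true] at h1
  linarith

private theorem O_r (hN : 2 ≤ N) {l : Bool} {ω : Env N} (h : ω ∈ cone N (near N l true)) :
    ω (cl N 1 N) ≤ ω (cl N 2 (N - 1)) := by
  have h1 := h.2 (near N l false) (near_path hN l false)
  rw [len_near hN, len_near hN] at h1
  simp only [Bool.false_eq_true, if_false, if_true] at h1
  linarith

private theorem O_map (hN : 2 ≤ N) (l r : Bool) {ω : Env N} (h : ω ∈ cone N (near N l r))
    (hq : ω (cl N 0 N) ≤ ω (cl N 1 (N - 1))) :
    (fun c => ω (sg N l r c)) ∈ cone N (corner N) ∧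
      (l = true → ω (sg N l r (cl N 1 (N - 2))) ≤ ω (sg N l r (cl N 0 (N - 1)))) ∧
      (r = true → ω (sg N l r (cl N 2 (N - 1))) ≤ ω (sg N l r (cl N 1 N))) := by
  obtain ⟨v1, v2, v3, v4, v5, v6⟩ := O_val hN l r ω
  have hl : l = true → ω (cl N 0 (N - 1)) ≤ ω (cl N 1 (N - 2)) := by
    rintro rfl
    exact O_l hN h
  have hr : r = true → ω (cl N 1 N) ≤ ω (cl N 2 (N - 1)) := by
    rintro rfl
    exact O_r hN h
  refine ⟨?_, ?_, ?_⟩
  · refine key hN h (fun c => h.1 _) l r ?_ ?_ ?_ ?_
    · intro c c1 c2 c3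
      by_cases h2 : c = cl N 1 (N - 1)
      · rw [h2, v2]
        exact hq
      by_cases h4 : c = cl N 1 (N - 2)
      · rw [h4, v4]
        cases l
        · simp
        · simpa using hl rfl
      by_cases h6 : c = cl N 2 (N - 1)
      · rw [h6, v6]
        cases r
        · simp
        · simpa using hr rfl
      · show ω (sg N l r c) ≤ ω c
        rw [O_oth l r c1 h2 c2 h4 c3 h6]
    · show ω (sg N l r (cl N 0 (N - 1))) ≤ _
      rw [v3]
    · show ω (sg N l r (cl N 1 N)) ≤ _
      rw [v5]
    · rw [len_corner hN, len_near hN]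
      have hRs : Rs N (fun c => ω (sg N l r c)) = Rs N ω := by
        refine Rs_congr hN fun c k1 k2 k3 => ?_
        show ω (sg N l r c) = ω c
        rw [O_oth l r]
        · intro hc
          rw [hc] at k2
          simp only [cl] at k2
          omega
        · intro hc
          rw [hc] at k2
          simp only [cl] at k2
          omega
        · intro hc
          rw [hc] at k1
          simp only [cl] at k1
          omega
        · intro hc
          rw [hc] at k1
          simp only [cl] at k1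
          omega
        · intro hc
          rw [hc] at k3
          simp only [cl] at k3
          omega
        · intro hc
          rw [hc] at k3
          simp only [cl] at k3
          omega
      rw [hRs]
      show Rs N ω + (ω (sg N l r (cl N 0 (N - 1))) + ω (sg N l r (cl N 0 N)) +
        ω (sg N l r (cl N 1 N))) = _
      rw [v1, v3, v5]
  · intro h7
    rw [v3, v4, if_pos h7, if_pos h7]
    exact hl h7
  · intro h7
    rw [v5, v6, if_pos h7, if_pos h7]
    exact hr h7

/-- the path through `(2, N - 2)` -/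
private def O_far (N : ℕ) (k : ℕ) : Fin (N + 1) × Fin (N + 1) :=
  if k = N then cl N 2 (N - 2) else near N true true k

private theorem O_one (hN : 2 ≤ N) (k : ℕ) : (O_far N k).1.val =
    if k = N then 2 else if k + 1 = N then 1 else if k = N + 1 then 2 else min (k - N) N := by
  unfold O_far near
  simp only [and_true]
  split_ifs
  · simp only [cl]; omega
  · simp only [cl]; omega
  · simp only [cl]; omega
  · rfl

private theorem O_two (hN : 2 ≤ N) (k : ℕ) : (O_far N k).2.val =
    if k = N then N - 2 else if k + 1 = N then N - 2 else if k = N + 1 then N - 1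
      else min k N := by
  unfold O_far near
  simp only [and_true]
  split_ifs
  · simp only [cl]; omega
  · simp only [cl]; omega
  · simp only [cl]; omega
  · rfl

private theorem O_far_path (hN : 2 ≤ N) : IsPath N (O_far N) := by
  refine ⟨?_, ?_, fun k hk => ?_⟩
  · refine Prod.ext (Fin.ext ?_) (Fin.ext ?_)
    · rw [O_one hN, if_neg (by omega), if_neg (by omega), if_neg (by omega)]
      simp
    · rw [O_two hN, if_neg (by omega), if_neg (by omega), if_neg (by omega)]
      simp
  · refine Prod.ext (Fin.ext ?_) (Fin.ext ?_)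
    · rw [O_one hN, if_neg (by omega), if_neg (by omega), if_neg (by omega)]
      simp only [Fin.val_last]
      omega
    · rw [O_two hN, if_neg (by omega), if_neg (by omega), if_neg (by omega)]
      simp only [Fin.val_last]
      omega
  · rw [Fin.ext_iff, Fin.ext_iff, O_one hN, O_one hN, O_two hN, O_two hN]
    split_ifs <;> omega

private theorem O_far_len (ω : Env N) : len N (O_far N) ω + ω (cl N 1 (N - 1)) =
    len N (near N true true) ω + ω (cl N 2 (N - 2)) := by
  unfold len
  have hm : N ∈ Finset.range (2 * N + 1) := Finset.mem_range.2 (by omega)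
  rw [← Finset.add_sum_erase _ _ hm,
    ← Finset.add_sum_erase _ (fun k => ω (near N true true k)) hm]
  have h1 : O_far N N = cl N 2 (N - 2) := if_pos rfl
  have h2 : near N true true N = cl N 1 (N - 1) := if_pos rfl
  have h3 : ∑ k ∈ (Finset.range (2 * N + 1)).erase N, ω (O_far N k) =
      ∑ k ∈ (Finset.range (2 * N + 1)).erase N, ω (near N true true k) := by
    refine Finset.sum_congr rfl fun k hk => ?_
    have h4 : O_far N k = near N true true k := if_neg (Finset.ne_of_mem_erase hk)
    rw [h4]
  rw [h1, h2, h3]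
  ring

private theorem O_cm (c0 d0 : Fin (N + 1) × Fin (N + 1)) :
    MeasurableSet (Set.univ.pi (bx N c0 d0)) := by
  refine MeasurableSet.univ_pi fun c => ?_
  unfold bx
  split_ifs
  · exact measurableSet_Icc
  · exact measurableSet_Icc
  · exact measurableSet_Ici
  · exact measurableSet_Icc

private theorem O_b1 {c0 d0 : Fin (N + 1) × Fin (N + 1)} {ω : Env N}
    (h : ω ∈ Set.univ.pi (bx N c0 d0)) : ω c0 ≤ 2 := by
  have h1 := h c0 (Set.mem_univ _)
  unfold bx at h1
  rw [if_pos rfl] at h1
  exact h1.2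

private theorem O_b2 {c0 d0 : Fin (N + 1) × Fin (N + 1)} (hne : d0 ≠ c0) {ω : Env N}
    (h : ω ∈ Set.univ.pi (bx N c0 d0)) : 3 ≤ ω d0 := by
  have h1 := h d0 (Set.mem_univ _)
  unfold bx at h1
  rw [if_neg hne, if_pos rfl] at h1
  exact h1.1

private theorem O_b3 {c0 d0 c : Fin (N + 1) × Fin (N + 1)} (h1 : c ≠ c0) (h2 : c ≠ d0)
    (h3 : c.1.val = 0 ∨ c.2.val = N) {ω : Env N}
    (h : ω ∈ Set.univ.pi (bx N c0 d0)) : 6 ≤ ω c := by
  have h4 := h c (Set.mem_univ _)
  unfold bx at h4
  rw [if_neg h1, if_neg h2, if_pos h3] at h4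
  exact h4

private theorem O_b4 {c0 d0 c : Fin (N + 1) × Fin (N + 1)} (h1 : c ≠ c0) (h2 : c ≠ d0)
    (h3 : ¬ (c.1.val = 0 ∨ c.2.val = N)) {ω : Env N}
    (h : ω ∈ Set.univ.pi (bx N c0 d0)) : ω c ≤ 1 := by
  have h4 := h c (Set.mem_univ _)
  unfold bx at h4
  rw [if_neg h1, if_neg h2, if_neg h3] at h4
  exact h4.2

/-- the conclusion from a box -/
private theorem O_fin (hN : 2 ≤ N) (l r : Bool) {c0 d0 : Fin (N + 1) × Fin (N + 1)}
    (hs : Set.univ.pi (bx N c0 d0) ⊆ {ω | ω ∈ cone N (corner N) ∧
      (l = true → ω (cl N 1 (N - 2)) ≤ ω (cl N 0 (N - 1))) ∧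
        (r = true → ω (cl N 2 (N - 1)) ≤ ω (cl N 1 N))})
    (hd : ∀ ω ∈ Set.univ.pi (bx N c0 d0), (fun c => ω (sg N l r c)) ∉ cone N (near N l r)) :
    law N {ω | ω ∈ cone N (near N l r) ∧ ω (cl N 0 N) ≤ ω (cl N 1 (N - 1))} <
      law N {ω | ω ∈ cone N (corner N) ∧ (l = true → ω (cl N 1 (N - 2)) ≤ ω (cl N 0 (N - 1))) ∧
        (r = true → ω (cl N 2 (N - 1)) ≤ ω (cl N 1 N))} := by
  haveI := isProbabilityMeasure_expMeasure (show (0 : ℝ) < 1 by norm_num)
  haveI : IsProbabilityMeasure (law N) := by
    unfold law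
    infer_instance
  have e1 := law_perm N ((O_inv hN l r).toPerm (sg N l r))
    {ω | ω ∈ cone N (near N l r) ∧ ω (cl N 0 N) ≤ ω (cl N 1 (N - 1))}
  rw [← e1]
  obtain ⟨T, hT⟩ : ∃ T : Set (Env N), T = {ω | (fun c => ω ((O_inv hN l r).toPerm (sg N l r) c)) ∈
    {ω : Env N | ω ∈ cone N (near N l r) ∧ ω (cl N 0 N) ≤ ω (cl N 1 (N - 1))}} := ⟨_, rfl⟩
  rw [← hT]
  have hTm : ∀ ω ∈ T, (fun c => ω (sg N l r c)) ∈ cone N (near N l r) ∧
      ω (sg N l r (cl N 0 N)) ≤ ω (sg N l r (cl N 1 (N - 1))) := by
    intro ω hω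
    rw [hT] at hω
    exact hω
  have hTA : T ⊆ {ω | ω ∈ cone N (corner N) ∧
      (l = true → ω (cl N 1 (N - 2)) ≤ ω (cl N 0 (N - 1))) ∧
        (r = true → ω (cl N 2 (N - 1)) ≤ ω (cl N 1 N))} := by
    intro ω hω
    obtain ⟨h1, h2⟩ := hTm ω hω
    have h3 := O_map hN l r h1 h2
    have h4 : ∀ c, sg N l r (sg N l r c) = c := O_inv hN l r
    simp only [h4] at h3
    exact h3
  have hdis : Disjoint T (Set.univ.pi (bx N c0 d0)) := by
    rw [Set.disjoint_left]
    intro ω h1 h2
    exact hd ω h2 (hTm ω h1).1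
  have h5 : law N (T ∪ Set.univ.pi (bx N c0 d0)) = law N T + law N (Set.univ.pi (bx N c0 d0)) :=
    measure_union hdis (O_cm c0 d0)
  have h6 : law N (T ∪ Set.univ.pi (bx N c0 d0)) ≤ law N {ω | ω ∈ cone N (corner N) ∧
      (l = true → ω (cl N 1 (N - 2)) ≤ ω (cl N 0 (N - 1))) ∧
        (r = true → ω (cl N 2 (N - 1)) ≤ ω (cl N 1 N))} :=
    measure_mono (Set.union_subset hTA hs)
  refine lt_of_lt_of_le ?_ h6
  rw [h5]
  exact ENNReal.lt_add_right (measure_ne_top _ _) (bx_pos c0 d0).ne'

theorem pcO (hN : 2 ≤ N) (l r : Bool) :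
    law N {ω | ω ∈ cone N (near N l r) ∧ ω (cl N 0 N) ≤ ω (cl N 1 (N - 1))} <
      law N {ω | ω ∈ cone N (corner N) ∧ (l = true → ω (cl N 1 (N - 2)) ≤ ω (cl N 0 (N - 1))) ∧
        (r = true → ω (cl N 2 (N - 1)) ≤ ω (cl N 1 N))} := by
  cases l with
  | false =>
    refine O_fin hN false r (c0 := cl N 0 (N - 1)) (d0 := cl N 1 (N - 2)) ?_ ?_
    · intro ω hω
      refine ⟨bx_sub (k0 := N - 1) (k1 := N) (by omega) (by omega) (by omega) ?_ ?_ ?_ ?_ hω,
        fun h => absurd h (by simp), fun _ => ?_⟩
      · refine Prod.ext (Fin.ext ?_) (Fin.ext ?_)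
        · simp only [cl, corner]; omega
        · simp only [cl, corner]; try omega
      · simp only [cl]; omega
      · simp only [cl]; omega
      · intro v hv h1 h2
        have h3 := hv.step (N - 1) (by omega)
        rw [show N - 1 + 1 = N by omega, h1, h2] at h3
        simp only [cl, corner, Fin.ext_iff] at h3
        omega
      · have h1 := O_b4 (c := cl N 2 (N - 1)) (O_ne (by omega)) (O_ne (by omega))
          (by simp only [cl]; omega) hω
        have h2 := O_b3 (c := cl N 1 N) (O_ne (by omega)) (O_ne (by omega))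
          (by simp only [cl]; omega) hω
        linarith
    · intro ω hω hcon
      have h1 := hcon.2 (near N true r) (near_path hN true r)
      rw [len_near hN, len_near hN] at h1
      obtain ⟨v1, v2, v3, v4, v5, v6⟩ := O_val hN false r ω
      simp only [Bool.false_eq_true, if_false, if_true] at h1 v3 v4
      rw [v3, v4] at h1
      have h2 := O_b1 hω
      have h3 := O_b2 (O_ne (by omega)) hω
      linarith
  | true =>
    cases r with
    | false =>
      refine O_fin hN true false (c0 := cl N 1 N) (d0 := cl N 2 (N - 1)) ?_ ?_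
      · intro ω hω
        refine ⟨bx_sub (k0 := N + 1) (k1 := N) (by omega) (by omega) (by omega) ?_ ?_ ?_ ?_ hω,
          fun _ => ?_, fun h => absurd h (by simp)⟩
        · refine Prod.ext (Fin.ext ?_) (Fin.ext ?_)
          · simp only [cl, corner]; omega
          · simp only [cl, corner]; omega
        · simp only [cl]; omega
        · simp only [cl]; omega
        · intro v hv h1 h2
          have h3 := hv.step N (by omega)
          rw [h1, h2] at h3
          simp only [cl, corner, Fin.ext_iff] at h3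
          omega
        · have h1 := O_b4 (c := cl N 1 (N - 2)) (O_ne (by omega)) (O_ne (by omega))
            (by simp only [cl]; omega) hω
          have h2 := O_b3 (c := cl N 0 (N - 1)) (O_ne (by omega)) (O_ne (by omega))
            (by simp only [cl]; omega) hω
          linarith
      · intro ω hω hcon
        have h1 := hcon.2 (near N true true) (near_path hN true true)
        rw [len_near hN, len_near hN] at h1
        obtain ⟨v1, v2, v3, v4, v5, v6⟩ := O_val hN true false ω
        simp only [Bool.false_eq_true, if_false, if_true] at h1 v5 v6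
        rw [v5, v6] at h1
        have h2 := O_b1 hω
        have h3 := O_b2 (O_ne (by omega)) hω
        linarith
    | true =>
      refine O_fin hN true true (c0 := cl N 0 N) (d0 := cl N 2 (N - 2)) ?_ ?_
      · intro ω hω
        refine ⟨bx_sub (k0 := N) (k1 := N - 1) (by omega) (by omega) (by omega) ?_ ?_ ?_ ?_ hω,
          fun _ => ?_, fun _ => ?_⟩
        · refine Prod.ext (Fin.ext ?_) (Fin.ext ?_)
          · simp only [cl, corner]; omega
          · simp only [cl, corner]; try omega
        · simp only [cl]; omega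
        · simp only [cl]; omega
        · intro v hv h1 h2
          have h3 := hv.step (N - 1) (by omega)
          rw [show N - 1 + 1 = N by omega, h1, h2] at h3
          simp only [cl, corner, Fin.ext_iff] at h3
          omega
        · have h1 := O_b4 (c := cl N 1 (N - 2)) (O_ne (by omega)) (O_ne (by omega))
            (by simp only [cl]; omega) hω
          have h2 := O_b3 (c := cl N 0 (N - 1)) (O_ne (by omega)) (O_ne (by omega))
            (by simp only [cl]; omega) hω
          linarith
        · have h1 := O_b4 (c := cl N 2 (N - 1)) (O_ne (by omega)) (O_ne (by omega))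
            (by simp only [cl]; omega) hω
          have h2 := O_b3 (c := cl N 1 N) (O_ne (by omega)) (O_ne (by omega))
            (by simp only [cl]; omega) hω
          linarith
      · intro ω hω hcon
        have h1 := hcon.2 (O_far N) (O_far_path hN)
        have h2 := O_far_len (fun c => ω (sg N true true c))
        obtain ⟨v1, v2, v3, v4, v5, v6⟩ := O_val hN true true ω
        have h3 : sg N true true (cl N 2 (N - 2)) = cl N 2 (N - 2) :=
          O_oth true true (O_ne (by omega)) (O_ne (by omega)) (O_ne (by omega)) (O_ne (by omega))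
            (O_ne (by omega)) (O_ne (by omega))
        simp only [h3, v2] at h2
        have h4 := O_b1 hω
        have h5 := O_b2 (O_ne (by omega)) hω
        linarith

end Pool.Agent.FX.NB
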